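import Pool.Graph.R_pool_sql_team_seeded_c8625f6e.K4H94.SX.Final
set_option autoImplicit false
set_option linter.unusedSectionVars false

/-!
Flows with a general ratio condition: `R S X Y` says that at a vertex with the improving set `S` the
set `X` may not be much more probable than the set `Y`.
-/

namespace Pool.Agent.H10.RR

open Finset Sum
open Pool.Agent.K4H94.SX

/-- the probabilities of the histories, with a general ratio condition -/
structure VFlow {ι : Type} (R : Finset ι → Finset ι → Finset ι → Prop) (θ : ℕ)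
    (m : Hist ι → ℝ) : Prop where
  nonneg : ∀ h, 0 ≤ m h
  sub : ∀ h S y, ∑ i ∈ S, m (((S, y), i) :: h) ≤ m h
  ratio : ∀ (h : Hist ι) (S : Finset ι) (y : ℕ) (X Y : Finset ι), R S X Y →
    ∑ i ∈ X, m (((S, y), i) :: h) ≤ θ * ∑ i ∈ Y, m (((S, y), i) :: h)

theorem VFlow.weak {ι : Type} {R : Finset ι → Finset ι → Finset ι → Prop} {θ : ℕ}
    {m : Hist ι → ℝ} (hm : VFlow R θ m) (q : ℕ) : IsFlow 0 q 0 m := by
  refine ⟨hm.nonneg, hm.sub, ?_⟩
  intro h S y X Y _ _ hXc _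
  have : X = ∅ := Finset.card_eq_zero.1 (by omega)
  subst this
  simp

theorem VFlow.mono {ι : Type} {R R' : Finset ι → Finset ι → Finset ι → Prop} {θ : ℕ}
    {m : Hist ι → ℝ} (hm : VFlow R' θ m) (h : ∀ S X Y, R S X Y → R' S X Y) : VFlow R θ m :=
  ⟨hm.nonneg, hm.sub, fun h' S y X Y hXY => hm.ratio h' S y X Y (h S X Y hXY)⟩

section ext

variable {ι κ : Type} [DecidableEq ι] [Fintype ι] [DecidableEq κ] [Fintype κ] {q : ℕ}

/-- the relation for the inner directions -/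
def inRel (R : Finset (κ ⊕ ι) → Finset (κ ⊕ ι) → Finset (κ ⊕ ι) → Prop)
    (S X Y : Finset ι) : Prop :=
  ∀ K : Finset κ, R (K.disjSum S) (X.map ⟨inr, Sum.inr_injective⟩)
    (Y.map ⟨inr, Sum.inr_injective⟩)

variable (KO : (κ → Bool) → (ι → Bool) → Finset κ) (CV : (κ → Bool) → (ι → Bool) → ℕ → ℕ)
  (stop : (κ → Bool) → Prop)

variable {θ : ℕ} {R : Finset (κ ⊕ ι) → Finset (κ ⊕ ι) → Finset (κ ⊕ ι) → Prop}

theorem inner_vflow {m : Hist (κ ⊕ ι) → ℝ} (hm : VFlow R θ m) (F : ℕ) (w₀ : κ → Bool)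
    (v₀ : ι → Bool) (h₀ : Hist (κ ⊕ ι)) :
    VFlow (inRel R) θ (inner KO CV stop F w₀ v₀ h₀ m) := by
  have hw : IsFlow 0 0 0 m := hm.weak 0
  refine ⟨fun h' => arr_nonneg KO CV stop F w₀ v₀ h₀ h' fun _ h => hm.nonneg h, ?_, ?_⟩
  · intro h' S y
    rw [K4H94.SX.inner_sum]
    exact arr_mono KO CV stop F w₀ v₀ h₀ h' fun w h => run_sub KO CV stop hw _ (S, y) _ _ _
  · intro h' S y X Y hXY
    rw [K4H94.SX.inner_sum, K4H94.SX.inner_sum, ← arr_mul]
    refine arr_mono KO CV stop F w₀ v₀ h₀ h' fun w h => ?_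
    rw [← run_mul]
    refine run_mono KO CV stop _ _ _ _ _ fun w1 h1 => ?_
    have := hm.ratio h1 ((KO w1 (pos v₀ h')).disjSum S) (CV w1 (pos v₀ h') y)
      (X.map ⟨inr, Sum.inr_injective⟩) (Y.map ⟨inr, Sum.inr_injective⟩) (hXY _)
    simpa [Finset.sum_map, obs] using this

end ext

/-- random structures on which every flow is slow -/
def VHardFor (ι : Type) [DecidableEq ι] [Fintype ι] {q : ℕ}
    (R : Finset ι → Finset ι → Finset ι → Prop) (θ N : ℕ) (ε : ℝ) (Ω : Type) [Fintype Ω]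
    (A : Ω → Str ι q) : Prop :=
  ∀ m : Hist ι → ℝ, VFlow R θ m → ∀ x h,
    ∑ ω, loss (A ω) m N x h ≤ ε * Fintype.card Ω * m h

/-- `Vis S`: the improving set `S` is visible -/
def VHard (ι : Type) [DecidableEq ι] [Fintype ι] (q : ℕ)
    (R : Finset ι → Finset ι → Finset ι → Prop) (Vis : Finset ι → Prop) (θ N : ℕ) (ε : ℝ) :
    Prop :=
  ∃ (Ω : Type) (_ : Fintype Ω) (_ : Nonempty Ω) (A : Ω → Str ι q),
    (∀ ω x, (A ω).U x → Vis (improving (A ω).f x)) ∧ VHardFor ι R θ N ε Ω A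

theorem VHard.mono {ι : Type} [DecidableEq ι] [Fintype ι] {q : ℕ}
    {R R' : Finset ι → Finset ι → Finset ι → Prop} {Vis Vis' : Finset ι → Prop} {θ N : ℕ}
    {ε ε' : ℝ} (H : VHard ι q R Vis θ N ε) (hR : ∀ S X Y, R S X Y → R' S X Y)
    (hV : ∀ S, Vis S → Vis' S) (h : ε ≤ ε') : VHard ι q R' Vis' θ N ε' := by
  obtain ⟨Ω, hΩ, hΩ', A, hA1, hA⟩ := H
  refine ⟨Ω, hΩ, hΩ', A, fun ω x hx => hV _ (hA1 ω x hx), fun m hm x h' =>
    (hA m (hm.mono hR) x h').trans ?_⟩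
  have := hm.nonneg h'
  gcongr

/-- **The external process lemma.** -/
theorem ext_vhard {ι κ : Type} [DecidableEq ι] [Fintype ι] [DecidableEq κ] [Fintype κ] {q : ℕ}
    (KO : (κ → Bool) → (ι → Bool) → Finset κ) (CV : (κ → Bool) → (ι → Bool) → ℕ → ℕ)
    (stop : (κ → Bool) → Prop) {θ : ℕ}
    {R : Finset (κ ⊕ ι) → Finset (κ ⊕ ι) → Finset (κ ⊕ ι) → Prop} {N : ℕ} {ε : ℝ} {Ω : Type}
    [Fintype Ω] {A : Ω → Str ι q}
    (hA : VHardFor ι (inRel R) θ N ε Ω A) {m : Hist (κ ⊕ ι) → ℝ} (hm : VFlow R θ m) (T : ℕ)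
    (w : κ → Bool) (v : ι → Bool) (h : Hist (κ ⊕ ι)) :
    ∑ ω, ext (A ω) KO CV stop m T N w v h ≤ ε * Fintype.card Ω * m h := by
  have h1 := hA _ (inner_vflow KO CV stop hm T w v h) v []
  refine le_trans (Finset.sum_le_sum fun ω _ => ?_) h1
  exact ext_le_loss KO CV stop (A ω) (hm.weak q) T w v h N []

end Pool.Agent.H10.RR
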