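import Mathlib
set_option autoImplicit false
set_option linter.unusedSectionVars false

/-!
Regular choice rules: selection of groups of directions, each of which is chosen with a noticeable
probability in the presence of all the groups selected later.
-/

namespace Pool.Agent.H10.RR

open Finset

/-- regular weights: further alternatives do not make an alternative heavier, or the sum smaller;
the weights of at least `n / 2` alternatives have the sum `1` or more -/
structure Reg {α : Type} (n : ℕ) (ρ : Finset α → α → ℝ) : Prop where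
  nonneg : ∀ S i, 0 ≤ ρ S i
  anti : ∀ S T : Finset α, S ⊆ T → ∀ i ∈ S, ρ T i ≤ ρ S i
  mono : ∀ S T : Finset α, S ⊆ T → ∑ i ∈ S, ρ S i ≤ ∑ i ∈ T, ρ T i
  big : ∀ S : Finset α, n ≤ 2 * S.card → 1 ≤ ∑ i ∈ S, ρ S i

section

variable {α : Type} [DecidableEq α] {n : ℕ} {ρ : Finset α → α → ℝ}

/-- the rest has at least the mass of a smaller rest -/
theorem Reg.rest (h : Reg n ρ) {S U Y : Finset α} (hU : U ⊆ S) (hY : Y ⊆ S)
    (hUY : Disjoint U Y) : ∑ i ∈ Y, ρ (U ∪ Y) i ≤ ∑ i ∈ S \ U, ρ S i := by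
  have h1 : ∑ i ∈ S \ U, ρ S i + ∑ i ∈ U, ρ S i = ∑ i ∈ S, ρ S i := Finset.sum_sdiff hU
  have h2 : ∑ i ∈ U, ρ (U ∪ Y) i + ∑ i ∈ Y, ρ (U ∪ Y) i = ∑ i ∈ U ∪ Y, ρ (U ∪ Y) i :=
    (Finset.sum_union hUY).symm
  have h4 := h.mono _ _ (Finset.union_subset hU hY)
  have h3 : ∑ i ∈ U, ρ S i ≤ ∑ i ∈ U, ρ (U ∪ Y) i :=
    Finset.sum_le_sum fun i hi => h.anti _ _ (Finset.union_subset hU hY) i
      (Finset.mem_union_left _ hi)
  linarith

theorem Reg.mono_mass (h : Reg n ρ) {U Y Y' : Finset α} (hY : Y' ⊆ Y) (hUY : Disjoint U Y) :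
    ∑ i ∈ Y', ρ (U ∪ Y') i ≤ ∑ i ∈ Y, ρ (U ∪ Y) i := by
  have h1 := h.rest (S := U ∪ Y) (U := U) (Y := Y') Finset.subset_union_left
    (hY.trans Finset.subset_union_right) (hUY.mono_right hY)
  have h2 : (U ∪ Y) \ U = Y := by
    rw [Finset.union_sdiff_cancel_left hUY]
  rwa [h2] at h1

/-- harmonic sums -/
theorem harm_le (m : ℕ) : ∑ j ∈ Finset.range m, (1 : ℝ) / (j + 1) ≤ Nat.log 2 m + 2 := by
  rcases Nat.eq_zero_or_pos m with rfl | hm
  · simp
  · have h1 : ∑ j ∈ Finset.range m, (1 : ℝ) / (j + 1) = ((harmonic m : ℚ) : ℝ) := by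
      unfold harmonic
      push_cast
      refine Finset.sum_congr rfl fun j _ => ?_
      rw [one_div]
    rw [h1]
    have h2 := harmonic_le_one_add_log m
    have h3 : Real.log m ≤ Nat.log 2 m + 1 := by
      have h4 : m < 2 ^ (Nat.log 2 m + 1) := Nat.lt_pow_succ_log_self (by norm_num) m
      have h5 : (m : ℝ) ≤ 2 ^ (Nat.log 2 m + 1) := by exact_mod_cast h4.le
      have h6 : Real.log m ≤ Real.log (2 ^ (Nat.log 2 m + 1)) :=
        Real.log_le_log (by exact_mod_cast hm) h5
      rw [Real.log_pow] at h6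
      have h7 : Real.log 2 ≤ 1 := by
        have := Real.log_le_sub_one_of_pos (show (0 : ℝ) < 2 by norm_num)
        linarith
      have h8 : ((Nat.log 2 m + 1 : ℕ) : ℝ) * Real.log 2 ≤ ((Nat.log 2 m + 1 : ℕ) : ℝ) * 1 :=
        mul_le_mul_of_nonneg_left h7 (Nat.cast_nonneg _)
      push_cast at h8 h6
      linarith
    linarith

/-- **A batch.** -/
theorem Reg.batch (h : Reg n ρ) (hn : 0 < n) {Λ : ℝ} (hΛ0 : 0 < Λ)
    (hΛ : ∀ m ≤ n, ∑ j ∈ Finset.range m, (1 : ℝ) / (j + 1) ≤ Λ) (N : Finset α)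
    (hN : n ≤ 2 * N.card) (hNn : N.card ≤ n) :
    ∃ B ⊆ N, B.Nonempty ∧ (∀ y ∈ B, 1 / (2 * Λ * B.card) ≤ ρ N y) ∧
      ∀ y ∈ B, 1 / (2 * n : ℝ) ≤ ρ N y := by
  have hn' : (0 : ℝ) < n := by exact_mod_cast hn
  by_contra hc
  push Not at hc
  have step : ∀ B ⊆ N, B.Nonempty → ∃ y ∈ B, ρ N y < 1 / (2 * Λ * B.card) + 1 / (2 * n : ℝ) := by
    intro B hB hBne
    have hB0 : (0 : ℝ) < B.card := by exact_mod_cast hBne.card_pos
    have p1 : 0 < 1 / (2 * Λ * B.card) := by positivity
    have p2 : 0 < 1 / (2 * n : ℝ) := by positivity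
    by_cases h1 : ∀ y ∈ B, 1 / (2 * Λ * B.card) ≤ ρ N y
    · obtain ⟨y, hy, hlt⟩ := hc B hB hBne h1
      exact ⟨y, hy, by linarith⟩
    · push Not at h1
      obtain ⟨y, hy, hlt⟩ := h1
      exact ⟨y, hy, by linarith⟩
  have key : ∀ m : ℕ, ∀ B ⊆ N, B.card = m → ∑ y ∈ B, ρ N y ≤
      (1 / (2 * Λ)) * ∑ j ∈ Finset.range m, (1 : ℝ) / (j + 1) + m * (1 / (2 * n : ℝ)) ∧
      (0 < m → ∑ y ∈ B, ρ N y <
      (1 / (2 * Λ)) * ∑ j ∈ Finset.range m, (1 : ℝ) / (j + 1) + m * (1 / (2 * n : ℝ))) := by
    intro m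
    induction m with
    | zero =>
      intro B _ hB
      rw [Finset.card_eq_zero] at hB
      subst hB
      simp
    | succ m ih =>
      intro B hB hBc
      obtain ⟨y, hy, hlt⟩ := step B hB (Finset.card_pos.1 (by omega))
      have h1 := (ih (B.erase y) ((Finset.erase_subset _ _).trans hB)
        (by rw [Finset.card_erase_of_mem hy]; omega)).1
      have h2 := Finset.add_sum_erase B (ρ N) hy
      have h3 : (1 / (2 * Λ)) * ∑ j ∈ Finset.range (m + 1), (1 : ℝ) / (j + 1) =
          (1 / (2 * Λ)) * ∑ j ∈ Finset.range m, (1 : ℝ) / (j + 1) + 1 / (2 * Λ * B.card) := by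
        rw [Finset.sum_range_succ, mul_add, hBc]
        push_cast
        congr 1
        field_simp
      have h4 : ∑ y ∈ B, ρ N y <
        (1 / (2 * Λ)) * ∑ j ∈ Finset.range (m + 1), (1 : ℝ) / (j + 1) +
          ((m + 1 : ℕ) : ℝ) * (1 / (2 * n : ℝ)) := by
        rw [← h2, h3]
        push_cast
        linarith
      exact ⟨h4.le, fun _ => h4⟩
  have h1 := (key N.card N subset_rfl rfl).2 (by omega)
  have h1' := h.big N hN
  have h2 : (1 / (2 * Λ)) * ∑ j ∈ Finset.range N.card, (1 : ℝ) / (j + 1) ≤ 1 / 2 := by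
    calc (1 / (2 * Λ)) * ∑ j ∈ Finset.range N.card, (1 : ℝ) / (j + 1)
        ≤ (1 / (2 * Λ)) * Λ := mul_le_mul_of_nonneg_left (hΛ _ hNn) (by positivity)
      _ = 1 / 2 := by field_simp
  have h3 : (N.card : ℝ) * (1 / (2 * n : ℝ)) ≤ 1 / 2 := by
    have : (N.card : ℝ) ≤ n := by exact_mod_cast hNn
    calc (N.card : ℝ) * (1 / (2 * n : ℝ)) ≤ n * (1 / (2 * n : ℝ)) :=
          mul_le_mul_of_nonneg_right this (by positivity)
      _ = 1 / 2 := by field_simp
  linarith

/-- **Selection of a group**, with a certificate. -/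
theorem Reg.select (h : Reg n ρ) (hn : 0 < n) {Λ : ℝ} (hΛ0 : 0 < Λ)
    (hΛ : ∀ m ≤ n, ∑ j ∈ Finset.range m, (1 : ℝ) / (j + 1) ≤ Λ) (c : ℕ) :
    ∀ N : Finset α, N.card ≤ n → n + 2 * c ≤ 2 * N.card →
    ∃ F F' : Finset α, Disjoint F F' ∧ F ∪ F' ⊆ N ∧ (F ∪ F').card = c ∧
      (∀ Y ⊆ F, ∀ U ⊆ N \ (F ∪ F'), (Y.card : ℝ) ≤ 2 * Λ * c * ∑ i ∈ Y, ρ (U ∪ Y) i) ∧
      ∀ Y ⊆ F', ∀ U ⊆ N \ (F ∪ F'), (Y.card : ℝ) ≤ 2 * n * ∑ i ∈ Y, ρ (U ∪ Y) i := by
  have hn' : (0 : ℝ) < n := by exact_mod_cast hn
  induction c using Nat.strong_induction_on with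
  | _ c ih =>
  intro N hNn hcN
  rcases Nat.eq_zero_or_pos c with rfl | hc
  · refine ⟨∅, ∅, by simp, by simp, by simp, ?_, ?_⟩
    · intro Y hY U _
      rw [Finset.subset_empty] at hY
      subst hY
      simp
    · intro Y hY U _
      rw [Finset.subset_empty] at hY
      subst hY
      simp
  obtain ⟨B, hBN, hBne, hB1, hB2⟩ := h.batch hn hΛ0 hΛ N (by omega) hNn
  rcases Nat.lt_or_ge B.card c with hlt | hge
  · -- a full batch
    have hBc := hBne.card_pos
    obtain ⟨F, F', hFF, hFN, hFc, hF1, hF2⟩ := ih (c - B.card) (by omega) (N \ B)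
      ((Finset.card_le_card Finset.sdiff_subset).trans hNn)
      (by rw [Finset.card_sdiff_of_subset hBN]; omega)
    have hBF : Disjoint B (F ∪ F') := by
      refine Finset.disjoint_left.2 fun x hx hx' => ?_
      exact (Finset.mem_sdiff.1 (hFN hx')).2 hx
    have hBF1 : Disjoint B F := hBF.mono_right Finset.subset_union_left
    have hBF2 : Disjoint B F' := hBF.mono_right Finset.subset_union_right
    refine ⟨B ∪ F, F', Finset.disjoint_union_left.2 ⟨hBF2, hFF⟩, ?_, ?_, ?_, ?_⟩
    · rw [Finset.union_assoc]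
      exact Finset.union_subset hBN (hFN.trans Finset.sdiff_subset)
    · rw [Finset.union_assoc, Finset.card_union_of_disjoint hBF, hFc]
      omega
    · intro Y hY U hU
      rw [Finset.union_assoc] at hU
      have hUY : Disjoint U Y := by
        refine Finset.disjoint_left.2 fun x hx hx' => ?_
        have h1 := (Finset.mem_sdiff.1 (hU hx)).2
        apply h1
        rcases Finset.mem_union.1 (hY hx') with h2 | h2
        · exact Finset.mem_union_left _ h2
        · exact Finset.mem_union_right _ (Finset.mem_union_left _ h2)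
      have e1 : Y = (Y ∩ B) ∪ (Y ∩ F) := by
        rw [← Finset.inter_union_distrib_left, Finset.inter_eq_left.2 hY]
      have e2 : Y.card = (Y ∩ B).card + (Y ∩ F).card := by
        conv_lhs => rw [e1]
        exact Finset.card_union_of_disjoint
          (hBF1.mono Finset.inter_subset_right Finset.inter_subset_right)
      set P := ∑ i ∈ Y, ρ (U ∪ Y) i with hP
      -- the part in the batch
      have a1 : ∑ i ∈ Y ∩ B, ρ (U ∪ (Y ∩ B)) i ≤ P :=
        h.mono_mass Finset.inter_subset_left hUY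
      have a2 : ∑ i ∈ Y ∩ B, ρ N i ≤ ∑ i ∈ Y ∩ B, ρ (U ∪ (Y ∩ B)) i := by
        refine Finset.sum_le_sum fun i hi => h.anti _ _ ?_ i (Finset.mem_union_right _ hi)
        exact Finset.union_subset (hU.trans Finset.sdiff_subset)
          (Finset.inter_subset_right.trans hBN)
      have a3 : ((Y ∩ B).card : ℝ) * (1 / (2 * Λ * B.card)) ≤ ∑ i ∈ Y ∩ B, ρ N i := by
        rw [← nsmul_eq_mul, ← Finset.sum_const]
        exact Finset.sum_le_sum fun i hi => hB1 i (Finset.inter_subset_right hi)
      have hB0 : (0 : ℝ) < B.card := by exact_mod_cast hBc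
      have a4 : ((Y ∩ B).card : ℝ) ≤ 2 * Λ * B.card * P := by
        have h5 : ((Y ∩ B).card : ℝ) * (1 / (2 * Λ * B.card)) ≤ P := a3.trans (a2.trans a1)
        have h6 : 0 < 2 * Λ * B.card := mul_pos (mul_pos two_pos hΛ0) hB0
        rw [mul_one_div, div_le_iff₀ h6] at h5
        linarith
      -- the other part
      have b1 : ∑ i ∈ Y ∩ F, ρ (U ∪ (Y ∩ F)) i ≤ P :=
        h.mono_mass Finset.inter_subset_left hUY
      have b2 := hF1 (Y ∩ F) Finset.inter_subset_right U (by
        intro x hx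
        have h1 := Finset.mem_sdiff.1 (hU hx)
        rw [Finset.mem_sdiff, Finset.mem_sdiff]
        exact ⟨⟨h1.1, fun h2 => h1.2 (Finset.mem_union_left _ h2)⟩,
          fun h2 => h1.2 (Finset.mem_union_right _ h2)⟩)
      have b3 : ((c - B.card : ℕ) : ℝ) = c - B.card := by
        rw [Nat.cast_sub hlt.le]
      rw [b3] at b2
      have hcB : (0 : ℝ) ≤ c - B.card := by
        have : (B.card : ℝ) ≤ c := by exact_mod_cast hlt.le
        linarith
      have b4 : ((Y ∩ F).card : ℝ) ≤ 2 * Λ * (c - B.card) * P :=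
        b2.trans (mul_le_mul_of_nonneg_left b1 (by positivity))
      rw [e2]
      push_cast
      calc ((Y ∩ B).card : ℝ) + ((Y ∩ F).card : ℝ)
          ≤ 2 * Λ * B.card * P + 2 * Λ * (c - B.card) * P := add_le_add a4 b4
        _ = 2 * Λ * c * P := by ring
    · intro Y hY U hU
      refine hF2 Y hY U ?_
      rw [Finset.union_assoc] at hU
      intro x hx
      have h1 := Finset.mem_sdiff.1 (hU hx)
      rw [Finset.mem_sdiff, Finset.mem_sdiff]
      exact ⟨⟨h1.1, fun h2 => h1.2 (Finset.mem_union_left _ h2)⟩,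
        fun h2 => h1.2 (Finset.mem_union_right _ h2)⟩
  · -- the last batch
    obtain ⟨F', hF'B, hF'c⟩ := Finset.exists_subset_card_eq hge
    refine ⟨∅, F', Finset.disjoint_empty_left _, ?_, ?_, ?_, ?_⟩
    · rw [Finset.empty_union]; exact hF'B.trans hBN
    · rw [Finset.empty_union]; exact hF'c
    · intro Y hY U _
      rw [Finset.subset_empty] at hY
      subst hY
      simp
    · intro Y hY U hU
      rw [Finset.empty_union] at hU
      have a2 : ∑ i ∈ Y, ρ N i ≤ ∑ i ∈ Y, ρ (U ∪ Y) i := by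
        refine Finset.sum_le_sum fun i hi => h.anti _ _ ?_ i (Finset.mem_union_right _ hi)
        exact Finset.union_subset (hU.trans Finset.sdiff_subset) ((hY.trans hF'B).trans hBN)
      have a3 : (Y.card : ℝ) * (1 / (2 * n : ℝ)) ≤ ∑ i ∈ Y, ρ N i := by
        rw [← nsmul_eq_mul, ← Finset.sum_const]
        exact Finset.sum_le_sum fun i hi => hB2 i (hF'B (hY hi))
      have h5 := a3.trans a2
      have h6 : (0 : ℝ) < 2 * n := by positivity
      rw [mul_one_div, div_le_iff₀ h6] at h5
      linarith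

/-- **Selection of a group**: every part of it with more than `q` elements has mass at least
`δ` in the presence of all the other elements. -/
theorem Reg.group (h : Reg n ρ) (hn : 0 < n) {q : ℕ} (hq : 0 < q) {δ : ℝ}
    (hδ1 : δ * (256 * (Nat.log 2 n + 2)) ≤ 1) (hδ2 : δ * (4 * n) ≤ q)
    (N : Finset α) (hNn : N.card ≤ n) (hN : n + 2 * (64 * q) ≤ 2 * N.card) :
    ∃ G ⊆ N, G.card = 64 * q ∧ ∀ Y ⊆ G, q < Y.card → ∀ U ⊆ N \ G,
      δ ≤ ∑ i ∈ Y, ρ (U ∪ Y) i := by
  have hn' : (0 : ℝ) < n := by exact_mod_cast hn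
  have hq' : (0 : ℝ) < q := by exact_mod_cast hq
  set Λ : ℝ := Nat.log 2 n + 2 with hΛ
  have hΛ0 : 0 < Λ := by positivity
  obtain ⟨F, F', hFF, hFN, hFc, hF1, hF2⟩ := h.select hn hΛ0 (fun m hm => (harm_le m).trans (by
    rw [hΛ]
    have : (Nat.log 2 m : ℝ) ≤ Nat.log 2 n := by exact_mod_cast Nat.log_mono_right hm
    linarith)) (64 * q) N hNn hN
  refine ⟨F ∪ F', hFN, hFc, ?_⟩
  intro Y hY hYc U hU
  have hUY : Disjoint U Y := by
    refine Finset.disjoint_left.2 fun x hx hx' => ?_
    exact (Finset.mem_sdiff.1 (hU hx)).2 (hY hx')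
  have e1 : Y = (Y ∩ F) ∪ (Y ∩ F') := by
    rw [← Finset.inter_union_distrib_left, Finset.inter_eq_left.2 hY]
  have e2 : Y.card = (Y ∩ F).card + (Y ∩ F').card := by
    conv_lhs => rw [e1]
    exact Finset.card_union_of_disjoint
      (hFF.mono Finset.inter_subset_right Finset.inter_subset_right)
  set P := ∑ i ∈ Y, ρ (U ∪ Y) i with hP
  have hP0 : 0 ≤ P := Finset.sum_nonneg fun i _ => h.nonneg _ _
  have a1 : ((Y ∩ F).card : ℝ) ≤ 2 * Λ * (64 * q) * P := by
    have := hF1 (Y ∩ F) Finset.inter_subset_right U hU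
    push_cast at this
    refine this.trans (mul_le_mul_of_nonneg_left ?_ (by positivity))
    exact h.mono_mass Finset.inter_subset_left hUY
  have a2 : ((Y ∩ F').card : ℝ) ≤ 2 * n * P := by
    have := hF2 (Y ∩ F') Finset.inter_subset_right U hU
    refine this.trans (mul_le_mul_of_nonneg_left ?_ (by positivity))
    exact h.mono_mass Finset.inter_subset_left hUY
  have a3 : (q : ℝ) ≤ (Y ∩ F).card + (Y ∩ F').card := by
    exact_mod_cast (e2 ▸ hYc).le
  rcases le_total ((Y ∩ F').card : ℝ) (q / 2) with h1 | h1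
  · have h2 : (q : ℝ) / 2 ≤ 2 * Λ * (64 * q) * P := by linarith
    have h3 : (1 : ℝ) ≤ 256 * Λ * P := by
      have : (q : ℝ) * 1 ≤ q * (256 * Λ * P) := by nlinarith
      exact le_of_mul_le_mul_left this hq'
    have h4 : δ * (256 * Λ) ≤ P * (256 * Λ) := by
      calc δ * (256 * Λ) ≤ 1 := hδ1
        _ ≤ P * (256 * Λ) := by linarith
    exact le_of_mul_le_mul_right h4 (by positivity)
  · have h2 : (q : ℝ) / 2 ≤ 2 * n * P := h1.trans a2
    have h4 : δ * (4 * n) ≤ P * (4 * n) := by linarith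
    exact le_of_mul_le_mul_right h4 (by positivity)

end

/-- **Levels.** -/
theorem levels {α : Type} [DecidableEq α] [Fintype α] (c b M : ℕ)
    (Q : Finset α → Finset α → Prop) (hQ : ∀ G U U', U' ⊆ U → Q G U → Q G U')
    (hsel : ∀ N : Finset α, c + b ≤ N.card → ∃ G ⊆ N, G.card = c ∧ Q G (N \ G)) (L : ℕ)
    (hL : L ≤ M) : ∀ N : Finset α, c * L + b ≤ N.card → ∃ g : α → ℕ,
      (∀ x, g x < L ∨ g x = M) ∧ (∀ x, x ∉ N → g x = M) ∧
      (∀ a < L, (univ.filter fun x => g x = a).card = c) ∧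
      ∀ i < L, Q (univ.filter fun x => g x = i) (univ.filter fun x => g x < i) := by
  induction L with
  | zero =>
    intro N _
    exact ⟨fun _ => M, fun _ => Or.inr rfl, fun _ _ => rfl, fun a ha => absurd ha (by omega),
      fun a ha => absurd ha (by omega)⟩
  | succ L ih =>
    intro N hN
    rw [Nat.mul_succ] at hN
    obtain ⟨G, hGN, hGc, hGQ⟩ := hsel N (by omega)
    obtain ⟨g, hg1, hg2, hg3, hg4⟩ := ih (by omega) (N \ G)
      (by rw [Finset.card_sdiff_of_subset hGN, hGc]; omega)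
    have hgG : ∀ x ∈ G, g x = M := fun x hx => hg2 x fun h => (Finset.mem_sdiff.1 h).2 hx
    have hlt : ∀ x, (if x ∈ G then L else g x) < L → x ∉ G ∧ g x < L := by
      intro x hx
      split_ifs at hx with h1
      · omega
      · exact ⟨h1, hx⟩
    refine ⟨fun x => if x ∈ G then L else g x, ?_, ?_, ?_, ?_⟩
    · intro x
      dsimp only
      split_ifs
      · left; omega
      · rcases hg1 x with h | h
        · left; omega
        · right; exact h
    · intro x hx
      dsimp only
      rw [if_neg fun h => hx (hGN h)]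
      exact hg2 x fun h => hx (Finset.mem_sdiff.1 h).1
    · intro a ha
      rcases Nat.lt_or_ge a L with h1 | h1
      · rw [← hg3 a h1]
        congr 1
        ext x
        simp only [Finset.mem_filter, Finset.mem_univ, true_and]
        split_ifs with h2
        · have := hgG x h2; omega
        · rfl
      · have : a = L := by omega
        subst this
        rw [← hGc]
        congr 1
        ext x
        simp only [Finset.mem_filter, Finset.mem_univ, true_and]
        split_ifs with h2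
        · simp [h2]
        · simp only [h2, iff_false]
          rcases hg1 x with h | h <;> omega
    · intro i hi
      rcases Nat.lt_or_ge i L with h1 | h1
      · have e1 : (univ.filter fun x => (if x ∈ G then L else g x) = i) =
            univ.filter fun x => g x = i := by
          ext x
          simp only [Finset.mem_filter, Finset.mem_univ, true_and]
          split_ifs with h2
          · have := hgG x h2; omega
          · rfl
        have e2 : (univ.filter fun x => (if x ∈ G then L else g x) < i) =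
            univ.filter fun x => g x < i := by
          ext x
          simp only [Finset.mem_filter, Finset.mem_univ, true_and]
          split_ifs with h2
          · have := hgG x h2; omega
          · rfl
        rw [e1, e2]
        exact hg4 i h1
      · have : i = L := by omega
        subst this
        have e1 : (univ.filter fun x => (if x ∈ G then i else g x) = i) = G := by
          ext x
          simp only [Finset.mem_filter, Finset.mem_univ, true_and]
          split_ifs with h2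
          · simp [h2]
          · simp only [h2, iff_false]
            rcases hg1 x with h | h <;> omega
        rw [e1]
        refine hQ _ _ _ ?_ hGQ
        intro x hx
        have h2 := hlt x (Finset.mem_filter.1 hx).2
        rw [Finset.mem_sdiff]
        refine ⟨?_, h2.1⟩
        by_contra h3
        have := hg2 x fun h => h3 (Finset.mem_sdiff.1 h).1
        omega

end Pool.Agent.H10.RR
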