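import Pool.Agent.H10.RR.Tower
import Pool.Agent.H10.RR.Select
import Pool.Graph.R_seed8.TH70.AR.Run
set_option autoImplicit false
set_option linter.unusedSectionVars false

/-!
The numbers for the two kinds of rules.
-/

namespace Pool.Agent.H10.RR

open Finset
open Pool.Agent.K4H94.SX

/-- the ratio condition -/
theorem ratio_rank {n : ℕ} (w : Fin n → ℝ) (X Y : Finset (Fin n)) (q β : ℕ)
    (hw : ∀ i ∈ X, ∀ j ∈ Y, w i ≤ β * w j) (hXc : X.card ≤ 64 * q)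
    (hYc : q < Y.card) (h0 : ∀ i, 0 ≤ w i) :
    ∑ i ∈ X, w i ≤ ((64 * β : ℕ) : ℝ) * ∑ i ∈ Y, w i := by
  have hYpos : (0 : ℝ) < Y.card := by
    exact_mod_cast lt_of_le_of_lt (Nat.zero_le q) hYc
  have hYs : 0 ≤ ∑ i ∈ Y, w i := sum_nonneg fun i _ => h0 i
  have h1 : ∀ i ∈ X, (Y.card : ℝ) * w i ≤ β * ∑ j ∈ Y, w j := by
    intro i hi
    rw [mul_sum, ← nsmul_eq_mul, ← sum_const]
    exact sum_le_sum fun j hj => hw i hi j hj
  have h2 : (Y.card : ℝ) * ∑ i ∈ X, w i ≤ X.card * (β * ∑ j ∈ Y, w j) := by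
    rw [mul_sum, ← nsmul_eq_mul (X.card), ← sum_const]
    exact sum_le_sum h1
  have h3 : (X.card : ℝ) ≤ 64 * Y.card := by
    have : X.card ≤ 64 * Y.card := by omega
    exact_mod_cast this
  have h4 : (X.card : ℝ) * (β * ∑ j ∈ Y, w j) ≤ 64 * Y.card * (β * ∑ j ∈ Y, w j) :=
    mul_le_mul_of_nonneg_right h3 (by positivity)
  have h5 : (Y.card : ℝ) * ∑ i ∈ X, w i ≤ Y.card * (64 * β * ∑ j ∈ Y, w j) := by
    calc _ ≤ _ := h2
      _ ≤ _ := h4
      _ = _ := by ring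
  have h6 := le_of_mul_le_mul_left h5 hYpos
  push_cast
  exact h6

/-- the error -/
theorem error_le (k : ℕ) :
    ((k + 1 : ℕ) : ℝ) * 2 ^ (k + 1) * (1 / 2) ^ (3 * k + 1) ≤ (1 / 2) ^ k := by
  have h1 : ((k + 1 : ℕ) : ℝ) ≤ 2 ^ k := by
    have : k + 1 ≤ 2 ^ k := Nat.lt_two_pow_self
    exact_mod_cast this
  have h2 : ((1 : ℝ) / 2) ^ (3 * k + 1) = (1 / 2) ^ k * ((1 / 2) ^ k * (1 / 2) ^ (k + 1)) := by
    rw [← pow_add, ← pow_add]; congr 1; ring
  have h3 : (2 : ℝ) ^ (k + 1) * (1 / 2) ^ (k + 1) = 1 := by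
    rw [← mul_pow]; norm_num
  have h4 : (2 : ℝ) ^ k * (1 / 2) ^ k = 1 := by
    rw [← mul_pow]; norm_num
  calc ((k + 1 : ℕ) : ℝ) * 2 ^ (k + 1) * (1 / 2) ^ (3 * k + 1)
      = ((k + 1 : ℕ) : ℝ) * (1 / 2) ^ k * (1 / 2) ^ k * (2 ^ (k + 1) * (1 / 2) ^ (k + 1)) := by
        rw [h2]; ring
    _ = ((k + 1 : ℕ) : ℝ) * (1 / 2) ^ k * (1 / 2) ^ k := by rw [h3, mul_one]
    _ ≤ 2 ^ k * (1 / 2) ^ k * (1 / 2) ^ k := by
        apply mul_le_mul_of_nonneg_right _ (by positivity)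
        exact mul_le_mul_of_nonneg_right h1 (by positivity)
    _ = (1 / 2) ^ k := by rw [h4, one_mul]

/-- the conclusion -/
def SlowR {n : ℕ} (p : List ((Fin n → Bool) × ℕ × Finset (Fin n)) → Fin n → ℝ) (k : ℕ)
    (x₀ : Fin n → Bool) : Prop :=
  ∃ f : (Fin n → Bool) → ℕ, Function.Injective f ∧
      (∀ (U : Finset (Fin n)) (x : Fin n → Bool), ∃! y : Fin n → Bool,
        (∀ i, i ∉ U → y i = x i) ∧ ∀ i ∈ U, f (flip y i) < f y) ∧
      1 - (1 / 2) ^ k ≤ prob f p (2 ^ k) x₀ []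

theorem slow_of_levels {n : ℕ} (p : List ((Fin n → Bool) × ℕ × Finset (Fin n)) → Fin n → ℝ)
    (x₀ : Fin n → Bool) (q θ k : ℕ) (hθ : 1 ≤ θ)
    (ht : (1 + θ) * (3 * k + 1) ≤ 8 * q) (hk : 1 ≤ k) (hq : 3 * k + 1 ≤ q) (g : Fin n → ℕ)
    (hg : ∀ a < k + 1, (univ.filter fun x => g x = a).card = 64 * q) (hp0 : ∀ l i, 0 ≤ p l i)
    (hp1 : ∀ x y S l, S.Nonempty → ∑ i ∈ S, p ((x, y, S) :: l) i = 1)
    (hr : ∀ x y S l, ∀ a i, a < i → i < k + 1 → q < (S.filter fun z => g z = i).card →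
      ∑ i ∈ S.filter (fun z => g z = a), p ((x, y, S) :: l) i ≤
        θ * ∑ i ∈ S.filter (fun z => a < g z), p ((x, y, S) :: l) i) : SlowR p k x₀ := by
  obtain ⟨f, h1, h2, h3⟩ := rules_slow' p x₀ q θ (3 * k + 1) (k + 1) hθ ht (by omega) hq g hg
    hp0 hp1 hr
  refine ⟨f, h1, h2, ?_⟩
  have h4 : 2 ^ k ≤ 2 ^ (k + 1) - 1 := by
    have : 1 ≤ 2 ^ k := Nat.one_le_two_pow
    rw [pow_succ]; omega
  have h5 := prob_anti' p f hp0 hp1 h4 x₀ []
  have h6 := error_le k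
  linarith

/-- the elements of smallest rank -/
theorem exists_lowest {α : Type} [DecidableEq α] (rank : α → ℕ) (c : ℕ) (N : Finset α)
    (hN : c ≤ N.card) : ∃ G ⊆ N, G.card = c ∧ ∀ x ∈ G, ∀ y ∈ N \ G, rank x ≤ rank y := by
  induction c with
  | zero => exact ⟨∅, by simp, by simp, by simp⟩
  | succ c ih =>
    obtain ⟨G, hGN, hGc, hG⟩ := ih (by omega)
    have hne : (N \ G).Nonempty := by
      rw [← Finset.card_pos, Finset.card_sdiff_of_subset hGN]; omega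
    obtain ⟨m, hm, hmin⟩ := Finset.exists_min_image (N \ G) rank hne
    have hmG := Finset.mem_sdiff.1 hm
    refine ⟨insert m G, Finset.insert_subset hmG.1 hGN, ?_, ?_⟩
    · rw [Finset.card_insert_of_notMem hmG.2, hGc]
    · intro x hx y hy
      rw [Finset.mem_sdiff, Finset.mem_insert, not_or] at hy
      have hy' : y ∈ N \ G := Finset.mem_sdiff.2 ⟨hy.1, hy.2.2⟩
      rcases Finset.mem_insert.1 hx with rfl | h1
      · exact hmin y hy'
      · exact hG x h1 y hy'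

/-- **Rules which prefer the directions of low rank, up to a factor.** -/
theorem slow_rank (n k β : ℕ) (hk : 1 ≤ k) (hβ : 1 ≤ β)
    (p : List ((Fin n → Bool) × ℕ × Finset (Fin n)) → Fin n → ℝ)
    (hp0 : ∀ l i, 0 ≤ p l i)
    (hp1 : ∀ x c S l, S.Nonempty → ∑ i ∈ S, p ((x, c, S) :: l) i = 1)
    (hn : 4608 * β * k ^ 2 ≤ n) (rank : Fin n → ℕ)
    (hr : ∀ x c S l, ∀ i ∈ S, ∀ j ∈ S, rank i ≤ rank j →
      p ((x, c, S) :: l) j ≤ β * p ((x, c, S) :: l) i) (x₀ : Fin n → Bool) : SlowR p k x₀ := by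
  have e1 : (1 + 64 * β) * (3 * k + 1) ≤ 8 * (9 * β * (3 * k + 1)) := by
    have : (1 + 64 * β) ≤ 72 * β := by omega
    calc (1 + 64 * β) * (3 * k + 1) ≤ 72 * β * (3 * k + 1) := Nat.mul_le_mul_right _ this
      _ = _ := by ring
  have e2 : 3 * k + 1 ≤ 9 * β * (3 * k + 1) := Nat.le_mul_of_pos_left _ (by omega)
  have e3 : 64 * (9 * β * (3 * k + 1)) * (k + 1) ≤ n := by
    refine le_trans ?_ hn
    have hk2 : k * k ≥ k := Nat.le_mul_self k
    have : (3 * k + 1) * (k + 1) ≤ 8 * k ^ 2 := by nlinarith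
    calc 64 * (9 * β * (3 * k + 1)) * (k + 1) = 576 * β * ((3 * k + 1) * (k + 1)) := by ring
      _ ≤ 576 * β * (8 * k ^ 2) := Nat.mul_le_mul_left _ this
      _ = _ := by ring
  set q := 9 * β * (3 * k + 1) with hq
  obtain ⟨g, hg1, hg2, hg3, hg4⟩ := levels (α := Fin n) (64 * q) 0 (k + 1)
    (fun G U => ∀ x ∈ G, ∀ y ∈ U, rank x ≤ rank y)
    (fun G U U' hU h x hx y hy => h x hx y (hU hy))
    (fun N hN => exists_lowest rank (64 * q) N (by omega)) (k + 1) le_rfl univ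
    (by rw [Finset.card_univ, Fintype.card_fin]; exact e3)
  refine slow_of_levels p x₀ q (64 * β) k (by omega) e1 hk e2 g hg3 hp0 hp1 ?_
  intro x y S l a i ha hi hq'
  have h1 := ratio_rank (p ((x, y, S) :: l)) (S.filter fun z => g z = a)
    (S.filter fun z => g z = i) q β ?_ ?_ hq' (hp0 _)
  · refine h1.trans (mul_le_mul_of_nonneg_left ?_ (by positivity))
    refine Finset.sum_le_sum_of_subset_of_nonneg ?_ fun i _ _ => hp0 _ _
    intro z hz
    rw [Finset.mem_filter] at hz ⊢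
    exact ⟨hz.1, by omega⟩
  · intro j hj z hz
    rw [Finset.mem_filter] at hj hz
    refine hr x y S l z hz.1 j hj.1 (hg4 i hi z ?_ j ?_)
    · simp [hz.2]
    · simp only [Finset.mem_filter, Finset.mem_univ, true_and]; omega
  · rw [← hg3 a (by omega)]
    exact Finset.card_le_card (Finset.filter_subset_filter _ (Finset.subset_univ _))

/-- **Rules which are heavier than regular weights.** -/
theorem slow_reg (n k β : ℕ) (hk : 1 ≤ k) (hβ : 1 ≤ β)
    (p : List ((Fin n → Bool) × ℕ × Finset (Fin n)) → Fin n → ℝ)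
    (hp0 : ∀ l i, 0 ≤ p l i)
    (hp1 : ∀ x c S l, S.Nonempty → ∑ i ∈ S, p ((x, c, S) :: l) i = 1)
    (hn : 330000 * β * k ^ 2 * (k + Nat.log 2 n) ≤ n) (ρ : Finset (Fin n) → Fin n → ℝ)
    (hρ : Reg n ρ)
    (hr : ∀ x c S l, ∀ i ∈ S, ρ S i ≤ β * p ((x, c, S) :: l) i) (x₀ : Fin n → Bool) :
    SlowR p k x₀ := by
  set Λ := Nat.log 2 n with hΛ
  set q := n / (128 * (k + 1)) with hqdef
  have hkk : 128 * (k + 1) ≤ 256 * k := by omega
  have hL : 0 < 128 * (k + 1) := by omega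
  have hq1 : 1281 * (β * k * (k + Λ)) ≤ q := by
    rw [hqdef, Nat.le_div_iff_mul_le hL]
    refine le_trans ?_ hn
    calc 1281 * (β * k * (k + Λ)) * (128 * (k + 1))
        ≤ 1281 * (β * k * (k + Λ)) * (256 * k) := Nat.mul_le_mul_left _ hkk
      _ = 327936 * (β * k ^ 2 * (k + Λ)) := by ring
      _ ≤ 330000 * (β * k ^ 2 * (k + Λ)) := Nat.mul_le_mul_right _ (by norm_num)
      _ = 330000 * β * k ^ 2 * (k + Λ) := by ring
  have hbase : k ≤ β * k * (k + Λ) := by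
    calc k = 1 * k * 1 := by ring
      _ ≤ β * k * (k + Λ) := Nat.mul_le_mul (Nat.mul_le_mul_right _ hβ) (by omega)
  have hq0 : 0 < q := by omega
  have hn1 : n < 128 * (k + 1) * (q + 1) := by
    have h1 := Nat.div_add_mod n (128 * (k + 1))
    rw [← hqdef] at h1
    have h2 := Nat.mod_lt n hL
    rw [mul_add]
    omega
  have hn2 : 4 * n ≤ q * (1024 * (k + 1)) := by
    have h1 : 128 * (k + 1) * (q + 1) ≤ 128 * (k + 1) * (2 * q) :=
      Nat.mul_le_mul_left _ (by omega)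
    calc 4 * n ≤ 4 * (128 * (k + 1) * (2 * q)) := by omega
      _ = _ := by ring
  have e3 : 2 * (64 * q * (k + 1)) ≤ n := by
    calc 2 * (64 * q * (k + 1)) = n / (128 * (k + 1)) * (128 * (k + 1)) := by rw [← hqdef]; ring
      _ ≤ n := Nat.div_mul_le_self _ _
  have hn0 : 0 < n := by
    have : 0 < 64 * q * (k + 1) := by positivity
    omega
  set θ₀ := 256 * (Λ + 2) + 1024 * (k + 1) with hθ₀
  have hθ₀pos : 0 < θ₀ := by omega
  have e1 : (1 + β * θ₀) * (3 * k + 1) ≤ 8 * q := by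
    have h1 : θ₀ ≤ 2560 * (k + Λ) := by omega
    have h2 : 1 + β * θ₀ ≤ 2561 * (β * (k + Λ)) := by
      have h3 : β * θ₀ ≤ β * (2560 * (k + Λ)) := Nat.mul_le_mul_left _ h1
      have h4 : 1 ≤ β * (k + Λ) := Nat.mul_pos (by omega) (by omega)
      have h5 : β * (2560 * (k + Λ)) = 2560 * (β * (k + Λ)) := by ring
      omega
    calc (1 + β * θ₀) * (3 * k + 1) ≤ 2561 * (β * (k + Λ)) * (4 * k) :=
          Nat.mul_le_mul h2 (by omega)
      _ = 10244 * (β * k * (k + Λ)) := by ring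
      _ ≤ 8 * q := by omega
  have e2 : 3 * k + 1 ≤ q := by omega
  have hθ₀' : (0 : ℝ) < θ₀ := by exact_mod_cast hθ₀pos
  obtain ⟨g, hg1, hg2, hg3, hg4⟩ := levels (α := Fin n) (64 * q) ((n + 1) / 2) (k + 1)
    (fun G U => ∀ Y ⊆ G, q < Y.card → ∀ U' ⊆ U, 1 / (θ₀ : ℝ) ≤ ∑ i ∈ Y, ρ (U' ∪ Y) i)
    (fun G U U' hU h Y hY hYc U'' hU'' => h Y hY hYc U'' (hU''.trans hU))
    (fun N hN => hρ.group hn0 hq0 (by
      rw [one_div, inv_mul_le_iff₀ hθ₀', mul_one]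
      have : 256 * (Nat.log 2 n + 2) ≤ θ₀ := by omega
      exact_mod_cast this) (by
      rw [one_div, inv_mul_le_iff₀ hθ₀']
      have : 4 * n ≤ θ₀ * q := by
        refine hn2.trans ?_
        rw [mul_comm θ₀]
        exact Nat.mul_le_mul_left _ (by omega)
      exact_mod_cast this) N
      (by simpa using Finset.card_le_univ N) (by omega)) (k + 1) le_rfl univ
    (by rw [Finset.card_univ, Fintype.card_fin]; omega)
  refine slow_of_levels p x₀ q (β * θ₀) k (Nat.mul_pos (by omega) hθ₀pos) e1 hk e2 g hg3 hp0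
    hp1 ?_
  intro x y S l a i ha hi hq'
  set Y := S.filter fun z => g z = i with hY
  set U := S.filter fun z => g z ≤ a with hU
  have hYne : Y.Nonempty := Finset.card_pos.1 (by omega)
  have hSne : S.Nonempty := hYne.mono (Finset.filter_subset _ _)
  have hUY : Disjoint U Y := by
    refine Finset.disjoint_left.2 fun z hz hz' => ?_
    rw [hU, Finset.mem_filter] at hz
    rw [hY, Finset.mem_filter] at hz'
    omega
  have h1 := hg4 i hi Y (by
    intro z hz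
    rw [hY, Finset.mem_filter] at hz
    simp [hz.2]) hq' U (by
    intro z hz
    rw [hU, Finset.mem_filter] at hz
    simp only [Finset.mem_filter, Finset.mem_univ, true_and]
    omega)
  have h2 := hρ.rest (S := S) (U := U) (Y := Y) (Finset.filter_subset _ _)
    (Finset.filter_subset _ _) hUY
  have h3 : S \ U = S.filter fun z => a < g z := by
    ext z
    rw [hU, Finset.mem_sdiff, Finset.mem_filter, Finset.mem_filter]
    constructor
    · rintro ⟨hz, h⟩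
      exact ⟨hz, by by_contra hc; exact h ⟨hz, by omega⟩⟩
    · rintro ⟨hz, h⟩
      exact ⟨hz, fun hc => by omega⟩
  rw [h3] at h2
  have h4 : ∑ i ∈ S.filter (fun z => a < g z), ρ S i ≤
      β * ∑ i ∈ S.filter (fun z => a < g z), p ((x, y, S) :: l) i := by
    rw [Finset.mul_sum]
    exact Finset.sum_le_sum fun i hi => hr x y S l i (Finset.mem_filter.1 hi).1
  have h5 : ∑ i ∈ S.filter (fun z => g z = a), p ((x, y, S) :: l) i ≤ 1 := by
    rw [← hp1 x y S l hSne]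
    exact Finset.sum_le_sum_of_subset_of_nonneg (Finset.filter_subset _ _)
      fun i _ _ => hp0 _ _
  have h6 : 1 / (θ₀ : ℝ) ≤ β * ∑ i ∈ S.filter (fun z => a < g z), p ((x, y, S) :: l) i :=
    h1.trans (h2.trans h4)
  rw [div_le_iff₀ hθ₀'] at h6
  push_cast
  linarith

/-- a regular choice rule -/
theorem reg_of_choice {n : ℕ} {ρ : Finset (Fin n) → Fin n → ℝ} (hn : 0 < n)
    (h0 : ∀ S i, 0 ≤ ρ S i) (h1 : ∀ S : Finset (Fin n), S.Nonempty → ∑ i ∈ S, ρ S i = 1)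
    (h2 : ∀ S T : Finset (Fin n), S ⊆ T → ∀ i ∈ S, ρ T i ≤ ρ S i) : Reg n ρ := by
  refine ⟨h0, h2, ?_, ?_⟩
  · intro S T hST
    rcases S.eq_empty_or_nonempty with rfl | hS
    · rw [Finset.sum_empty]
      exact Finset.sum_nonneg fun i _ => h0 _ _
    · rw [h1 S hS, h1 T (hS.mono hST)]
  · intro S hS
    rw [h1 S (Finset.card_pos.1 (by omega))]

/-- priority lists -/
theorem choice_lists {n : ℕ} (μ : Equiv.Perm (Fin n) → ℝ)
    (h1 : ∑ σ, μ σ = 1) (S : Finset (Fin n)) (hS : S.Nonempty) :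
    ∑ i ∈ S, (∑ σ : Equiv.Perm (Fin n), if i ∈ S ∧ ∀ j ∈ S, σ i ≤ σ j then μ σ else 0) = 1 := by
  rw [Finset.sum_comm, ← h1]
  refine Finset.sum_congr rfl fun σ _ => ?_
  obtain ⟨m, hm, hmin⟩ := Finset.exists_min_image S σ hS
  rw [Finset.sum_eq_single_of_mem m hm]
  · rw [if_pos ⟨hm, hmin⟩]
  · intro j hj hjm
    rw [if_neg]
    rintro ⟨_, h⟩
    exact hjm (σ.injective (le_antisymm (h m hm) (hmin j hj)))

theorem anti_lists {n : ℕ} (μ : Equiv.Perm (Fin n) → ℝ) (h0 : ∀ σ, 0 ≤ μ σ)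
    (S T : Finset (Fin n)) (hST : S ⊆ T) (i : Fin n) (hi : i ∈ S) :
    (∑ σ : Equiv.Perm (Fin n), if i ∈ T ∧ ∀ j ∈ T, σ i ≤ σ j then μ σ else 0) ≤
      ∑ σ : Equiv.Perm (Fin n), if i ∈ S ∧ ∀ j ∈ S, σ i ≤ σ j then μ σ else 0 := by
  refine Finset.sum_le_sum fun σ _ => ?_
  by_cases h : i ∈ T ∧ ∀ j ∈ T, σ i ≤ σ j
  · rw [if_pos h, if_pos ⟨hi, fun j hj => h.2 j (hST hj)⟩]
  · rw [if_neg h]
    split_ifs
    exacts [h0 σ, le_rfl]

end Pool.Agent.H10.RR
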