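import Pool.Agent.H10.RR.Main
set_option autoImplicit false

/-!
# Rules which respect a ranking of the directions up to a factor

`flip x i` is the neighbour of the vertex `x` of the `n`-cube in direction `i`, and `improving f x` the
set of directions `i` with `f x < f (flip x i)`. A randomised pivot rule sees the list of triples (visited
vertex, its objective value, its set of improving directions), the current one first, and chooses one of
the improving directions at random; `p l i` is the probability of the direction `i` when `l` is seen. These
probabilities may depend on all that was seen in any way. `prob f p T x l` is the probability of at least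
`T` further steps from `x` when `l` was seen before.

The theorem is about rules with unlimited memory which are compatible, up to a factor `β`, with a fixed
ranking of the directions: an improving direction is at most `β` times as probable as an improving
direction of the same or of smaller rank. There is no bound in the other direction: for instance, the
improving direction of smallest rank may always be chosen (Bland's rule), or all of them may be equally
probable (Random-Edge), or the rule may change between such extremes during the run in any way. If all
ranks are equal, this is the case of bounded odds. Then `4608 β k²` dimensions are enough for `2 ^ k`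
steps.

Proof. The groups of `64 q` directions of the doubling construction of `K4H94.SX` (absorbing Hamming balls
around hidden random points, fresh random targets) are intervals of the ranking, and the groups which are
added last have the largest ranks. The construction only needs that the improving directions of an
upper group are together not much more probable than any `q + 1` improving directions of a lower group;
this is proved here for flows with a general ratio condition.
-/

namespace Pool.Agent.H10.RR.Ranked

open Finset

/-- the neighbour of the vertex `x` in direction `i` -/
def flip {n : ℕ} (x : Fin n → Bool) (i : Fin n) : Fin n → Bool := Function.update x i (!x i)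

/-- the improving directions at the vertex `x` -/
def improving {n : ℕ} (f : (Fin n → Bool) → ℕ) (x : Fin n → Bool) : Finset (Fin n) :=
  univ.filter fun i => f x < f (flip x i)

/-- `prob f p T x l` is the probability that the rule `p` makes at least `T` further steps from the
vertex `x` when it has seen `l` before: it sees `(x, f x, improving f x)` and moves to `flip x i` with
probability `p ((x, f x, improving f x) :: l) i`, and it stops if there is no improving direction. -/
noncomputable def prob {n : ℕ} (f : (Fin n → Bool) → ℕ)
    (p : List ((Fin n → Bool) × ℕ × Finset (Fin n)) → Fin n → ℝ) :
    ℕ → (Fin n → Bool) → List ((Fin n → Bool) × ℕ × Finset (Fin n)) → ℝ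
  | 0, _, _ => 1
  | T + 1, x, l => ∑ i ∈ improving f x, p ((x, f x, improving f x) :: l) i *
      prob f p T (flip x i) ((x, f x, improving f x) :: l)

theorem prob_eq {n : ℕ} (f : (Fin n → Bool) → ℕ)
    (p : List ((Fin n → Bool) × ℕ × Finset (Fin n)) → Fin n → ℝ) (T : ℕ) (x : Fin n → Bool)
    (l : List ((Fin n → Bool) × ℕ × Finset (Fin n))) :
    prob f p T x l = K4H94.SX.prob f p T x l := by
  induction T generalizing x l with
  | zero => rw [prob, K4H94.SX.prob]
  | succ T ih =>
    rw [prob, K4H94.SX.prob]
    refine sum_congr rfl fun i _ => ?_
    rw [ih]
    rfl

/-- **Rules with unlimited memory which respect a ranking of the directions up to a factor are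
exponential on abstract objective functions.** A rule sees the list of triples (visited vertex, its
objective value, its set of improving directions), the current one first; `p l i` is the probability with
which it chooses the direction `i` when it sees `l`. Let `k, β ≥ 1` and `n ≥ 4608 β k ^ 2`. Assume that for
some ranking of the directions an improving direction is always at most `β` times as probable as each
improving direction of the same or of smaller rank.

Then for every start vertex `x₀` of the `n`-cube there is an injective objective function `f` with
exactly one local maximum on every face (so that increasing paths of at most `n` steps lead from every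
vertex to the maximum) on which the rule, started at `x₀`, makes at least `2 ^ k` steps with a probability
of at least `1 - 2 ^ (-k)`. -/
theorem result (n k β : ℕ) (hk : 1 ≤ k) (hβ : 1 ≤ β) (hn : 4608 * β * k ^ 2 ≤ n)
    (p : List ((Fin n → Bool) × ℕ × Finset (Fin n)) → Fin n → ℝ)
    (hp0 : ∀ l i, 0 ≤ p l i)
    (hp1 : ∀ x c S l, S.Nonempty → ∑ i ∈ S, p ((x, c, S) :: l) i = 1)
    (rank : Fin n → ℕ)
    (hp : ∀ x c S l, ∀ i ∈ S, ∀ j ∈ S, rank i ≤ rank j →
      p ((x, c, S) :: l) j ≤ β * p ((x, c, S) :: l) i)
    (x₀ : Fin n → Bool) :
    ∃ f : (Fin n → Bool) → ℕ, Function.Injective f ∧
      (∀ (U : Finset (Fin n)) (x : Fin n → Bool), ∃! y : Fin n → Bool,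
        (∀ i, i ∉ U → y i = x i) ∧ ∀ i ∈ U, f (flip y i) < f y) ∧
      (∀ x : Fin n → Bool, ∃ (m : ℕ) (v : ℕ → (Fin n → Bool)), m ≤ n ∧ v 0 = x ∧
        (∀ t < m, ∃ i ∈ improving f (v t), v (t + 1) = flip (v t) i) ∧
        improving f (v m) = ∅) ∧
      1 - (1 / 2) ^ k ≤ prob f p (2 ^ k) x₀ [] := by
  obtain ⟨f, h1, h2, h3⟩ := H10.RR.slow_rank n k β hk hβ p hp0 hp1 hn rank hp x₀
  have h2' : Pool.Agent.TH70.AR.AOF f := h2
  refine ⟨f, h1, h2, Pool.Agent.TH70.AR.short_path h2', ?_⟩
  rw [prob_eq]
  exact h3

end Pool.Agent.H10.RR.Ranked
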