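import Pool.Agent.H10.RR.Flow
set_option autoImplicit false
set_option linter.unusedSectionVars false

/-!
One step of the construction, for flows with a general ratio condition.
-/

namespace Pool.Agent.H10.RR

open Finset Sum
open Pool.Agent.K4H94.SX

variable {ι κ : Type} [DecidableEq ι] [Fintype ι] [DecidableEq κ] [Fintype κ] {q : ℕ}
variable {θ : ℕ} {R : Finset (κ ⊕ ι) → Finset (κ ⊕ ι) → Finset (κ ⊕ ι) → Prop}

/-- one external step of the ideal process loses a factor -/
theorem ext_step' {m : Hist (κ ⊕ ι) → ℝ} (hm : VFlow R θ m) {lam : ℝ}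
    (hlam : lam * (1 + θ) = θ) (A : Str ι q)
    (hA : ∀ v, A.U v → ∀ K : Finset κ, R (K.disjSum (improving A.f v))
      (K.map ⟨inl, Sum.inl_injective⟩) ((improving A.f v).map ⟨inr, Sum.inr_injective⟩))
    (r : (ι → Bool) → κ → Bool) (w : κ → Bool)
    (v : ι → Bool) (h : Hist (κ ⊕ ι)) (hU : A.U v) :
    ∑ a ∈ KO0 r w v, m ((obs (KO0 r) (CV0 r) w v (ob A v), inl a) :: h) ≤ lam * m h := by
  have h1 := sub_obs (hm.weak q) (KO0 r) (CV0 r) w v (ob A v) h
  have h2 := hm.ratio h ((KO0 r w v).disjSum (improving A.f v)) (CV0 r w v (A.f v))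
      ((KO0 r w v).map ⟨inl, Sum.inl_injective⟩) ((improving A.f v).map ⟨inr, Sum.inr_injective⟩)
      (hA v hU _)
  simp only [Finset.sum_map, Function.Embedding.coeFn_mk] at h2
  have h3 : ∑ a ∈ KO0 r w v, m ((obs (KO0 r) (CV0 r) w v (ob A v), inl a) :: h) ≤
      θ * ∑ i ∈ improving A.f v, m ((obs (KO0 r) (CV0 r) w v (ob A v), inr i) :: h) := h2
  have h4 : (ob A v).1 = improving A.f v := rfl
  rw [h4] at h1
  set Q := ∑ a ∈ KO0 r w v, m ((obs (KO0 r) (CV0 r) w v (ob A v), inl a) :: h)
  set I := ∑ i ∈ improving A.f v, m ((obs (KO0 r) (CV0 r) w v (ob A v), inr i) :: h)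
  have hθ : (0 : ℝ) < 1 + θ := by positivity
  have h5 : Q * (1 + θ) ≤ θ * m h := by
    have h7 : (θ : ℝ) * (Q + I) ≤ θ * m h := mul_le_mul_of_nonneg_left h1 (Nat.cast_nonneg θ)
    linarith
  have h6 : Q * (1 + θ) ≤ lam * m h * (1 + θ) := by
    calc Q * (1 + θ) ≤ θ * m h := h5
      _ = lam * (1 + θ) * m h := by rw [hlam]
      _ = lam * m h * (1 + θ) := by ring
  exact le_of_mul_le_mul_right h6 hθ

/-- the average over `r` -/
theorem sum_t2' (A : Str ι q) {m : Hist (κ ⊕ ι) → ℝ} (hm : VFlow R θ m)
    (hA : ∀ v, A.U v → ∀ K : Finset κ, R (K.disjSum (improving A.f v))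
      (K.map ⟨inl, Sum.inl_injective⟩) ((improving A.f v).map ⟨inr, Sum.inr_injective⟩))
    {lam δ : ℝ} (hlam : lam * (1 + θ) = θ) (hδ : ∀ w : κ → Bool,
      ∑ x : κ → Bool, lam ^ ((diff w x).card - 8 * q) ≤ δ * Fintype.card (κ → Bool))
    (N T : ℕ) (w : κ → Bool) (v : ι → Bool) (h : Hist (κ ⊕ ι)) :
    ∑ r : (ι → Bool) → κ → Bool, t2 A r m T N w v h ≤
      Fintype.card ((ι → Bool) → κ → Bool) * (N * δ * m h) := by
  have hθ : (0 : ℝ) < 1 + θ := by positivity
  have hlam0 : 0 ≤ lam := by
    have : 0 ≤ lam * (1 + θ) := by rw [hlam]; positivity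
    exact nonneg_of_mul_nonneg_left this hθ
  have hlam1 : lam ≤ 1 := by
    by_contra hc
    push Not at hc
    nlinarith
  have hδ0 : 0 ≤ δ := by
    have h1 := hδ (fun _ => true)
    have h2 : (0 : ℝ) ≤ ∑ x : κ → Bool, lam ^ ((diff (fun _ => true) x).card - 8 * q) :=
      Finset.sum_nonneg fun _ _ => pow_nonneg hlam0 _
    have h3 : (0 : ℝ) < Fintype.card (κ → Bool) := by exact_mod_cast Fintype.card_pos
    exact nonneg_of_mul_nonneg_left (h2.trans h1) h3
  set R : ℝ := ((Fintype.card ((ι → Bool) → κ → Bool) : ℕ) : ℝ) with hR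
  have hR0 : 0 ≤ R := by positivity
  induction N generalizing T w v h with
  | zero =>
    have : ∀ r : (ι → Bool) → κ → Bool, t2 A r m T 0 w v h = 0 := by
      intro r; cases T <;> rw [t2, if_pos rfl]
    simp [this]
  | succ N ihN =>
    -- the epoch at `v` with `r v = x`
    have E : ∀ (x : κ → Bool) (T : ℕ) (w : κ → Bool) (h : Hist (κ ⊕ ι)),
        ∑ r : (ι → Bool) → κ → Bool, t2 A (Function.update r v x) m T (N + 1) w v h ≤
          R * ((lam ^ ((diff w x).card - 8 * q) + N * δ) * m h) := by
      intro x T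
      induction T with
      | zero =>
        intro w h
        have hm0 := hm.nonneg h
        by_cases hn : (diff w x).card < 8 * q
        · have e : ∀ r : (ι → Bool) → κ → Bool,
              t2 A (Function.update r v x) m 0 (N + 1) w v h = m h := by
            intro r; rw [t2, if_neg (by omega), Function.update_self, if_pos hn]
          simp only [e, Finset.sum_const, Finset.card_univ, nsmul_eq_mul]
          rw [← hR]
          have : (diff w x).card - 8 * q = 0 := by omega
          rw [this, pow_zero]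
          gcongr
          nlinarith [mul_nonneg (mul_nonneg (Nat.cast_nonneg (α := ℝ) N) hδ0) hm0]
        · have e : ∀ r : (ι → Bool) → κ → Bool,
              t2 A (Function.update r v x) m 0 (N + 1) w v h = 0 := by
            intro r; rw [t2, if_neg (by omega), Function.update_self, if_neg hn]
          simp only [e, Finset.sum_const_zero]
          positivity
      | succ T ihT =>
        intro w h
        have hm0 := hm.nonneg h
        by_cases hn : (diff w x).card < 8 * q
        · have e : ∀ r : (ι → Bool) → κ → Bool,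
              t2 A (Function.update r v x) m (T + 1) (N + 1) w v h = m h := by
            intro r; rw [t2, if_neg (by omega), Function.update_self, if_pos hn]
          simp only [e, Finset.sum_const, Finset.card_univ, nsmul_eq_mul]
          rw [← hR]
          have : (diff w x).card - 8 * q = 0 := by omega
          rw [this, pow_zero]
          gcongr
          nlinarith [mul_nonneg (mul_nonneg (Nat.cast_nonneg (α := ℝ) N) hδ0) hm0]
        · by_cases hU : A.U v
          · -- the observation does not depend on `r`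
            set r₁ : (ι → Bool) → κ → Bool := fun _ => x with hr₁
            have eK : ∀ r : (ι → Bool) → κ → Bool, KO0 (Function.update r v x) w v =
                KO0 r₁ w v := by
              intro r; unfold KO0; rw [Function.update_self]
            have eO : ∀ r : (ι → Bool) → κ → Bool,
                obs (KO0 (Function.update r v x)) (CV0 (Function.update r v x)) w v (ob A v) =
                obs (KO0 r₁) (CV0 r₁) w v (ob A v) := by
              intro r; unfold obs; rw [eK]; unfold CV0; rw [Function.update_self]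
            set o := obs (KO0 r₁) (CV0 r₁) w v (ob A v) with ho
            have e : ∀ r : (ι → Bool) → κ → Bool,
                t2 A (Function.update r v x) m (T + 1) (N + 1) w v h =
                ∑ a ∈ KO0 r₁ w v, t2 A (Function.update r v x) m T (N + 1) (flip w a) v
                  ((o, inl a) :: h) +
                ∑ i ∈ improving A.f v, t2 A r m T N w (flip v i) ((o, inr i) :: h) := by
              intro r
              rw [t2, if_neg (by omega), Function.update_self, if_neg hn, if_pos hU, eK, eO]
              congr 1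
              refine Finset.sum_congr rfl fun i hi => ?_
              rw [Nat.add_sub_cancel]
              apply t2_update
              simpa [improving] using hi
            simp only [e]
            rw [Finset.sum_add_distrib, Finset.sum_comm,
              Finset.sum_comm (s := univ) (t := improving A.f v)]
            have i1 : ∑ a ∈ KO0 r₁ w v, ∑ r : (ι → Bool) → κ → Bool,
                t2 A (Function.update r v x) m T (N + 1) (flip w a) v ((o, inl a) :: h) ≤
                ∑ a ∈ KO0 r₁ w v, R * ((lam ^ ((diff w x).card - 1 - 8 * q) + N * δ) *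
                  m ((o, inl a) :: h)) := by
              refine Finset.sum_le_sum fun a ha => ?_
              have h1 := ihT (flip w a) ((o, inl a) :: h)
              have h2 : (diff (flip w a) x).card = (diff w x).card - 1 := by
                have ha' : w a ≠ x a := mem_diff.1 ha
                have := diff_flip_of_mem ha'
                omega
              rwa [h2] at h1
            have i2 : ∑ i ∈ improving A.f v, ∑ r : (ι → Bool) → κ → Bool,
                t2 A r m T N w (flip v i) ((o, inr i) :: h) ≤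
                ∑ i ∈ improving A.f v, R * (N * δ * m ((o, inr i) :: h)) :=
              Finset.sum_le_sum fun i _ => ihN _ _ _ _
            rw [← Finset.mul_sum, ← Finset.mul_sum] at i1 i2
            have i3 := sub_obs (hm.weak q) (KO0 r₁) (CV0 r₁) w v (ob A v) h
            rw [← ho] at i3
            have i4 := ext_step' hm hlam A hA r₁ w v h hU
            rw [← ho] at i4
            have i5 : (ob A v).1 = improving A.f v := rfl
            rw [i5] at i3
            set Q := ∑ a ∈ KO0 r₁ w v, m ((o, inl a) :: h) with hQ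
            set I := ∑ i ∈ improving A.f v, m ((o, inr i) :: h) with hI
            have hQ0 : 0 ≤ Q := Finset.sum_nonneg fun _ _ => hm.nonneg _
            have i6 : lam ^ ((diff w x).card - 1 - 8 * q) * Q ≤
                lam ^ ((diff w x).card - 8 * q) * m h := by
              have hp0 : 0 ≤ lam ^ ((diff w x).card - 1 - 8 * q) := pow_nonneg hlam0 _
              calc lam ^ ((diff w x).card - 1 - 8 * q) * Q
                  ≤ lam ^ ((diff w x).card - 1 - 8 * q) * (lam * m h) :=
                    mul_le_mul_of_nonneg_left i4 hp0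
                _ = lam ^ ((diff w x).card - 1 - 8 * q + 1) * m h := by ring
                _ ≤ lam ^ ((diff w x).card - 8 * q) * m h := by
                    refine mul_le_mul_of_nonneg_right ?_ hm0
                    exact pow_le_pow_of_le_one hlam0 hlam1 (by omega)
            have hN0 : (0 : ℝ) ≤ N * δ := by positivity
            have i7 : (lam ^ ((diff w x).card - 1 - 8 * q) + N * δ) * Q + N * δ * I ≤
                (lam ^ ((diff w x).card - 8 * q) + N * δ) * m h := by
              have := mul_le_mul_of_nonneg_left i3 hN0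
              nlinarith
            calc _ ≤ R * ((lam ^ ((diff w x).card - 1 - 8 * q) + N * δ) * Q) +
                  R * (N * δ * I) := by
                  exact add_le_add i1 i2
              _ = R * ((lam ^ ((diff w x).card - 1 - 8 * q) + N * δ) * Q + N * δ * I) := by
                  ring
              _ ≤ _ := mul_le_mul_of_nonneg_left i7 hR0
          · have e : ∀ r : (ι → Bool) → κ → Bool,
                t2 A (Function.update r v x) m (T + 1) (N + 1) w v h = 0 := by
              intro r; rw [t2, if_neg (by omega), Function.update_self, if_neg hn, if_neg hU]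
            simp only [e, Finset.sum_const_zero]
            positivity
    have hW : (0 : ℝ) < Fintype.card (κ → Bool) := by exact_mod_cast Fintype.card_pos
    have h1 := sum_update (fun r : (ι → Bool) → κ → Bool => t2 A r m T (N + 1) w v h) v
    have h2 : ∑ x : κ → Bool, ∑ r : (ι → Bool) → κ → Bool,
        t2 A (Function.update r v x) m T (N + 1) w v h ≤
        ∑ x : κ → Bool, R * ((lam ^ ((diff w x).card - 8 * q) + N * δ) * m h) :=
      Finset.sum_le_sum fun x _ => E x T w h
    have h3 : ∑ x : κ → Bool, R * ((lam ^ ((diff w x).card - 8 * q) + N * δ) * m h) =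
        R * ((∑ x : κ → Bool, lam ^ ((diff w x).card - 8 * q) +
          Fintype.card (κ → Bool) * (N * δ)) * m h) := by
      rw [← Finset.mul_sum, ← Finset.sum_mul, Finset.sum_add_distrib, Finset.sum_const,
        Finset.card_univ, nsmul_eq_mul]
    have h4 : (∑ x : κ → Bool, lam ^ ((diff w x).card - 8 * q) +
          Fintype.card (κ → Bool) * (N * δ)) * m h ≤
        Fintype.card (κ → Bool) * (((N + 1 : ℕ) : ℝ) * δ * m h) := by
      have := hδ w
      have hm0 := hm.nonneg h
      calc _ ≤ (δ * Fintype.card (κ → Bool) + Fintype.card (κ → Bool) * (N * δ)) * m h := by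
            gcongr
        _ = _ := by push_cast; ring
    have h5 : (Fintype.card (κ → Bool) : ℝ) *
        ∑ r : (ι → Bool) → κ → Bool, t2 A r m T (N + 1) w v h ≤
        Fintype.card (κ → Bool) * (R * (((N + 1 : ℕ) : ℝ) * δ * m h)) := by
      rw [← h1]
      refine h2.trans ?_
      rw [h3]
      calc _ ≤ R * (Fintype.card (κ → Bool) * (((N + 1 : ℕ) : ℝ) * δ * m h)) :=
            mul_le_mul_of_nonneg_left h4 hR0
        _ = _ := by ring
    exact le_of_mul_le_mul_left h5 hW

/-- **The ball is not entered too early.** -/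
theorem sum_prem' (A : Str ι q) {m : Hist (κ ⊕ ι) → ℝ} (hm : VFlow R θ m)
    (hA : ∀ v, A.U v → ∀ K : Finset κ, R (K.disjSum (improving A.f v))
      (K.map ⟨inl, Sum.inl_injective⟩) ((improving A.f v).map ⟨inr, Sum.inr_injective⟩))
    {lam δ : ℝ} (hlam : lam * (1 + θ) = θ) (hδ : ∀ w : κ → Bool,
      ∑ x : κ → Bool, lam ^ ((diff w x).card - 8 * q) ≤ δ * Fintype.card (κ → Bool))
    (N T : ℕ) (w : κ → Bool) (v : ι → Bool) (h : Hist (κ ⊕ ι)) :
    ∑ s : κ → Bool, ∑ r : (ι → Bool) → κ → Bool, prem A s r m T N w v h ≤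
      Fintype.card (κ → Bool) * Fintype.card ((ι → Bool) → κ → Bool) *
        (((1 / 4) ^ q * (T + 1 : ℕ) + N * δ) * m h) := by
  have hW : (Fintype.card (κ → Bool) : ℝ) = 2 ^ Fintype.card κ := by
    rw [Fintype.card_fun, Fintype.card_bool]; push_cast; rfl
  calc ∑ s : κ → Bool, ∑ r : (ι → Bool) → κ → Bool, prem A s r m T N w v h
      ≤ ∑ s : κ → Bool, ∑ r : (ι → Bool) → κ → Bool,
          (t1 A s r m T w v h + t2 A r m T N w v h) :=
        Finset.sum_le_sum fun s _ => Finset.sum_le_sum fun r _ => prem_le A s r (hm.weak q) T N w v h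
    _ = ∑ r : (ι → Bool) → κ → Bool, ∑ s : κ → Bool, t1 A s r m T w v h +
          Fintype.card (κ → Bool) * ∑ r : (ι → Bool) → κ → Bool, t2 A r m T N w v h := by
        simp only [Finset.sum_add_distrib]
        rw [Finset.sum_comm, Finset.sum_const, Finset.card_univ, nsmul_eq_mul]
    _ ≤ ∑ r : (ι → Bool) → κ → Bool,
          ((1 / 4) ^ q * 2 ^ Fintype.card κ) * ((T + 1 : ℕ) * m h) +
          Fintype.card (κ → Bool) *
            (Fintype.card ((ι → Bool) → κ → Bool) * (N * δ * m h)) := by
        refine add_le_add (Finset.sum_le_sum fun r _ => sum_t1 A r (hm.weak q) T w v h) ?_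
        exact mul_le_mul_of_nonneg_left (sum_t2' A hm hA hlam hδ N T w v h) (by positivity)
    _ = _ := by
        rw [Finset.sum_const, Finset.card_univ, nsmul_eq_mul, ← hW]
        ring


theorem loss_out' (s : κ → Bool) (r : (ι → Bool) → κ → Bool) (A : Str ι q)
    {N : ℕ} {ε : ℝ} (hε : 0 ≤ ε) {Ω : Type} [Fintype Ω] {B : Ω → Str ι q}
    (hB : VHardFor ι (inRel R) θ N ε Ω B)
    {m : Hist (κ ⊕ ι) → ℝ} (hm : VFlow R θ m) (T N' : ℕ) (hT : T ≤ N + N' + 1)
    (x : κ ⊕ ι → Bool) (h : Hist (κ ⊕ ι)) (hZ : ¬ (diff (x ∘ inl) s).card ≤ q) :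
    ∑ b, loss (comb s r A (B b)) m T x h ≤
      Fintype.card Ω * (ext A (KO1 q s r) (CV1 q s r) (fun w => (diff w s).card ≤ q) m T N'
        (x ∘ inl) (x ∘ inr) h + prem A s r m T N' (x ∘ inl) (x ∘ inr) h) +
      ε * Fintype.card Ω * m h := by
  have hε' : ∀ h : Hist (κ ⊕ ι), 0 ≤ ε * Fintype.card Ω * m h := fun h =>
    mul_nonneg (mul_nonneg hε (Nat.cast_nonneg _)) (hm.nonneg h)
  have hΩ0 : (0 : ℝ) ≤ Fintype.card Ω := Nat.cast_nonneg _
  induction T generalizing N' x h with
  | zero =>
    have h1 := ext_nonneg (KO1 q s r) (CV1 q s r) (fun w => (diff w s).card ≤ q) A (hm.weak q) 0 N'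
      (x ∘ inl) (x ∘ inr) h
    have h2 := prem_nonneg A s r (hm.weak q) 0 N' (x ∘ inl) (x ∘ inr) h
    simp only [loss, Finset.sum_const_zero]
    have := hε' h
    positivity
  | succ T ih =>
    set w := x ∘ inl with hw
    set v := x ∘ inr with hv
    set o := obs (KO1 q s r) (CV1 q s r) w v (ob A v) with ho
    -- the loss as a sum over the steps
    have e : ∀ b, loss (comb s r A (B b)) m (T + 1) x h =
        ∑ a ∈ KO1 q s r w v, loss (comb s r A (B b)) m T (flip x (inl a)) ((o, inl a) :: h) +
        ∑ i ∈ improving A.f v, loss (comb s r A (B b)) m T (flip x (inr i))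
          ((o, inr i) :: h) := by
      intro b
      rw [loss, comb_U, if_pos (Or.inl (not_le.1 hZ))]
      have hO := obs_out s r A (B b) x hZ
      rw [hO]
      have hI : improving (comb s r A (B b)).f x =
          (KO1 q s r w v).disjSum (improving A.f v) := congrArg Prod.fst hO
      rw [hI, Finset.sum_disjSum]
    have hsum : ∑ b, loss (comb s r A (B b)) m (T + 1) x h =
        ∑ a ∈ KO1 q s r w v, ∑ b, loss (comb s r A (B b)) m T (flip x (inl a))
          ((o, inl a) :: h) +
        ∑ i ∈ improving A.f v, ∑ b, loss (comb s r A (B b)) m T (flip x (inr i))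
          ((o, inr i) :: h) := by
      simp only [e]
      rw [Finset.sum_add_distrib, Finset.sum_comm,
        Finset.sum_comm (s := univ) (t := improving A.f v)]
    have hflow := sub_obs (hm.weak q) (KO1 q s r) (CV1 q s r) w v (ob A v) h
    rw [← ho] at hflow
    have hob : (ob A v).1 = improving A.f v := rfl
    rw [hob] at hflow
    -- the total
    have hle : ∀ b, loss (comb s r A (B b)) m (T + 1) x h ≤ m h := fun b => loss_le _ (hm.weak q) _ _ _
    by_cases hU : N' ≠ 0 ∧ ¬ A.U v
    · have h1 : ext A (KO1 q s r) (CV1 q s r) (fun w => (diff w s).card ≤ q) m (T + 1) N'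
          w v h = m h := by
        rw [ext.eq_2, if_neg hU.1, if_neg hU.2]
      rw [h1]
      have h2 := prem_nonneg A s r (hm.weak q) (T + 1) N' w v h
      have h3 : ∑ b, loss (comb s r A (B b)) m (T + 1) x h ≤ Fintype.card Ω * m h := by
        calc _ ≤ ∑ _b : Ω, m h := Finset.sum_le_sum fun b _ => hle b
          _ = _ := by rw [Finset.sum_const, Finset.card_univ, nsmul_eq_mul]
      have h4 := hε' h
      have h5 : Fintype.card Ω * m h ≤ Fintype.card Ω * (m h + prem A s r m (T + 1) N' w v h) :=
        mul_le_mul_of_nonneg_left (by linarith) hΩ0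
      linarith
    · -- bounds for the children
      have hc1 : ∀ a ∈ KO1 q s r w v, ∑ b, loss (comb s r A (B b)) m T (flip x (inl a))
          ((o, inl a) :: h) ≤
          Fintype.card Ω * (ext A (KO1 q s r) (CV1 q s r) (fun w => (diff w s).card ≤ q) m T N'
            (flip w a) v ((o, inl a) :: h) + prem A s r m T N' (flip w a) v
            ((o, inl a) :: h)) + ε * Fintype.card Ω * m ((o, inl a) :: h) := by
        intro a _
        by_cases hZ' : (diff (flip x (inl a) ∘ inl) s).card ≤ q
        · rw [flip_inl_inl, ← hw] at hZ'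
          have h1 := ext_nonneg (KO1 q s r) (CV1 q s r) (fun w => (diff w s).card ≤ q) A (hm.weak q) T N'
            (flip w a) v ((o, inl a) :: h)
          by_cases hN : N' = 0
          · have h2 : ∀ b, loss (comb s r A (B b)) m T (flip x (inl a)) ((o, inl a) :: h) ≤
                ext (B b) (KO2 s) (CV2 A s) (fun _ => False) m T N (flip w a) v
                  ((o, inl a) :: h) := by
              intro b
              have := loss_in s r A (B b) (hm.weak q) T N (by omega) (flip x (inl a))
                ((o, inl a) :: h) (by rw [flip_inl_inl]; exact hZ')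
              rw [flip_inl_inl, flip_inl_inr] at this
              exact this
            have h3 := ext_vhard (KO2 s) (CV2 A s) (fun _ => False) hB hm T (flip w a) v
              ((o, inl a) :: h)
            have h4 := prem_nonneg A s r (hm.weak q) T N' (flip w a) v ((o, inl a) :: h)
            have h5 : 0 ≤ Fintype.card Ω * (ext A (KO1 q s r) (CV1 q s r)
              (fun w => (diff w s).card ≤ q) m T N'
              (flip w a) v ((o, inl a) :: h) + prem A s r m T N' (flip w a) v
              ((o, inl a) :: h)) := mul_nonneg hΩ0 (by linarith)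
            have h6 := Finset.sum_le_sum fun b (_ : b ∈ univ) => h2 b
            linarith
          · have h2 : prem A s r m T N' (flip w a) v ((o, inl a) :: h) = m ((o, inl a) :: h) :=
              prem_Z A s r m T N' hN _ _ _ hZ'
            have h3 : ∑ b, loss (comb s r A (B b)) m T (flip x (inl a)) ((o, inl a) :: h) ≤
                Fintype.card Ω * m ((o, inl a) :: h) := by
              calc _ ≤ ∑ _b : Ω, m ((o, inl a) :: h) :=
                    Finset.sum_le_sum fun b _ => loss_le _ (hm.weak q) _ _ _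
                _ = _ := by rw [Finset.sum_const, Finset.card_univ, nsmul_eq_mul]
            rw [h2]
            have h4 := hε' ((o, inl a) :: h)
            have h5 : Fintype.card Ω * m ((o, inl a) :: h) ≤
                Fintype.card Ω * (ext A (KO1 q s r) (CV1 q s r)
                (fun w => (diff w s).card ≤ q) m T N'
                (flip w a) v ((o, inl a) :: h) + m ((o, inl a) :: h)) :=
              mul_le_mul_of_nonneg_left (by linarith) hΩ0
            linarith
        · have h1 := ih N' (by omega) (flip x (inl a)) ((o, inl a) :: h) hZ'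
          rw [flip_inl_inl, flip_inl_inr] at h1
          exact h1
      have hc2 : ∀ i ∈ improving A.f v, ∑ b, loss (comb s r A (B b)) m T (flip x (inr i))
          ((o, inr i) :: h) ≤
          Fintype.card Ω * (ext A (KO1 q s r) (CV1 q s r) (fun w => (diff w s).card ≤ q) m T
            (N' - 1) w (flip v i) ((o, inr i) :: h) + prem A s r m T (N' - 1) w (flip v i)
            ((o, inr i) :: h)) + ε * Fintype.card Ω * m ((o, inr i) :: h) := by
        intro i _
        have h1 := ih (N' - 1) (by omega) (flip x (inr i)) ((o, inr i) :: h)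
          (by rw [flip_inr_inl]; exact hZ)
        rw [flip_inr_inl, flip_inr_inr] at h1
        exact h1
      have hs1 := Finset.sum_le_sum hc1
      have hs2 := Finset.sum_le_sum hc2
      simp only [Finset.sum_add_distrib, ← Finset.mul_sum] at hs1 hs2
      have hs3 : ε * Fintype.card Ω * ∑ a ∈ KO1 q s r w v, m ((o, inl a) :: h) +
          ε * Fintype.card Ω * ∑ i ∈ improving A.f v, m ((o, inr i) :: h) ≤
          ε * Fintype.card Ω * m h := by
        rw [← mul_add]
        exact mul_le_mul_of_nonneg_left hflow (mul_nonneg hε hΩ0)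
      by_cases hN : N' = 0
      · subst hN
        have z1 : ∀ (w : κ → Bool) (v : ι → Bool) (h : Hist (κ ⊕ ι)), ext A (KO1 q s r)
            (CV1 q s r) (fun w => (diff w s).card ≤ q) m T 0 w v h = 0 := by
          intro w v h
          cases T <;> simp [K4H94.SX.ext]
        have z2 : ∀ (w : κ → Bool) (v : ι → Bool) (h : Hist (κ ⊕ ι)),
            prem A s r m T 0 w v h = 0 := by
          intro w v h
          cases T <;> simp [prem]
        have z3 : ext A (KO1 q s r) (CV1 q s r) (fun w => (diff w s).card ≤ q) m (T + 1) 0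
            w v h = 0 := by simp [K4H94.SX.ext]
        have z4 : prem A s r m (T + 1) 0 w v h = 0 := by simp [prem]
        simp only [Nat.zero_sub, z1, z2, Finset.sum_const_zero, add_zero, mul_zero,
          zero_add] at hs1 hs2
        rw [z3, z4, hsum]
        linarith
      · have hU' : A.U v := by
          by_contra hc
          exact hU ⟨hN, hc⟩
        have z3 : ext A (KO1 q s r) (CV1 q s r) (fun w => (diff w s).card ≤ q) m (T + 1) N'
            w v h =
            ∑ a ∈ KO1 q s r w v, ext A (KO1 q s r) (CV1 q s r)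
              (fun w => (diff w s).card ≤ q) m T N' (flip w a) v ((o, inl a) :: h) +
            ∑ i ∈ improving A.f v, ext A (KO1 q s r) (CV1 q s r)
              (fun w => (diff w s).card ≤ q) m T (N' - 1) w (flip v i) ((o, inr i) :: h) := by
          rw [ext.eq_2, if_neg hN, if_pos hU', if_neg hZ]
          rfl
        have z4 : prem A s r m (T + 1) N' w v h =
            ∑ a ∈ KO1 q s r w v, prem A s r m T N' (flip w a) v ((o, inl a) :: h) +
            ∑ i ∈ improving A.f v, prem A s r m T (N' - 1) w (flip v i)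
              ((o, inr i) :: h) := by
          rw [prem, if_neg hN, if_neg hZ, if_pos hU']
        rw [z3, z4, hsum]
        have hexp : ∀ a b c d : ℝ, (Fintype.card Ω : ℝ) * (a + b + (c + d)) =
            Fintype.card Ω * (a + c) + Fintype.card Ω * (b + d) := by
          intro a b c d; ring
        rw [hexp]
        linarith


/-- **One step of the construction.** -/
theorem vhard_step {N : ℕ} {ε : ℝ} (hε : 0 ≤ ε)
    (hc : 8 * q ≤ Fintype.card κ) {Vis : Finset ι → Prop}
    (hVis : ∀ S, Vis S → ∀ K : Finset κ, R (K.disjSum S)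
      (K.map ⟨inl, Sum.inl_injective⟩) (S.map ⟨inr, Sum.inr_injective⟩)) {lam δ : ℝ} (hlam : lam * (1 + θ) = θ) (hδ : ∀ w : κ → Bool,
      ∑ x : κ → Bool, lam ^ ((diff w x).card - 8 * q) ≤ δ * Fintype.card (κ → Bool))
    (H : VHard ι q (inRel R) Vis θ N ε) :
    VHard (κ ⊕ ι) q R (fun T => q < T.toLeft.card ∨ Vis T.toRight) θ (2 * N + 1)
      (2 * ε + ((1 / 4) ^ q * (2 * N + 3 : ℕ) + N * δ)) := by
  obtain ⟨Ω, hΩf, hΩn, B, hBV, hB⟩ := H
  refine ⟨(κ → Bool) × ((ι → Bool) → κ → Bool) × Ω × Ω, inferInstance, inferInstance,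
    fun ω => comb ω.1 ω.2.1 (B ω.2.2.1) (B ω.2.2.2), ?_, ?_⟩
  · intro ω x hx
    rw [comb_f, cf_improving]
    split_ifs with hZ
    · rcases hx with hx | hx
      · omega
      · right
        rw [Finset.toRight_disjSum]
        exact hBV _ _ hx
    · left
      rw [Finset.toLeft_disjSum]
      exact KB_card (not_le.1 hZ)
  intro m hm x h
  have hm0 := hm.nonneg h
  set Wc : ℝ := ((Fintype.card (κ → Bool) : ℕ) : ℝ) with hWc
  set Rc : ℝ := ((Fintype.card ((ι → Bool) → κ → Bool) : ℕ) : ℝ) with hRc
  set Oc : ℝ := ((Fintype.card Ω : ℕ) : ℝ) with hOc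
  have hWc0 : 0 ≤ Wc := Nat.cast_nonneg _
  have hRc0 : 0 ≤ Rc := Nat.cast_nonneg _
  have hOc0 : 0 ≤ Oc := Nat.cast_nonneg _
  have hcardΩ : ((Fintype.card ((κ → Bool) × ((ι → Bool) → κ → Bool) × Ω × Ω) : ℕ) : ℝ) =
      Wc * Rc * Oc * Oc := by
    rw [Fintype.card_prod, Fintype.card_prod, Fintype.card_prod]
    push_cast
    ring
  rw [hcardΩ, Fintype.sum_prod_type]
  simp only [Fintype.sum_prod_type]
  -- the bound for fixed `s`, `r`, `a`
  have key : ∀ (s : κ → Bool) (r : (ι → Bool) → κ → Bool) (a : Ω),
      ∑ b, loss (comb s r (B a) (B b)) m (2 * N + 1) x h ≤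
        Oc * m h * (if (diff (x ∘ inl) s).card ≤ q then (1 : ℝ) else 0) +
        (Oc * (ext (B a) (KO1 q s r) (CV1 q s r) (fun w => (diff w s).card ≤ q) m (2 * N + 1) N
          (x ∘ inl) (x ∘ inr) h + prem (B a) s r m (2 * N + 1) N (x ∘ inl) (x ∘ inr) h) +
          ε * Oc * m h) := by
    intro s r a
    have n1 := ext_nonneg (KO1 q s r) (CV1 q s r) (fun w => (diff w s).card ≤ q) (B a) (hm.weak q)
      (2 * N + 1) N (x ∘ inl) (x ∘ inr) h
    have n2 := prem_nonneg (B a) s r (hm.weak q) (2 * N + 1) N (x ∘ inl) (x ∘ inr) h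
    have n3 : 0 ≤ ε * Oc * m h := by positivity
    by_cases hZ : (diff (x ∘ inl) s).card ≤ q
    · rw [if_pos hZ]
      have h3 : ∑ b, loss (comb s r (B a) (B b)) m (2 * N + 1) x h ≤ Oc * m h := by
        calc _ ≤ ∑ _b : Ω, m h := Finset.sum_le_sum fun b _ => loss_le _ (hm.weak q) _ _ _
          _ = _ := by rw [Finset.sum_const, Finset.card_univ, nsmul_eq_mul]
      have n4 : 0 ≤ Oc * (ext (B a) (KO1 q s r) (CV1 q s r) (fun w => (diff w s).card ≤ q) m
          (2 * N + 1) N (x ∘ inl) (x ∘ inr) h + prem (B a) s r m (2 * N + 1) N (x ∘ inl)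
          (x ∘ inr) h) := mul_nonneg hOc0 (by linarith)
      linarith
    · rw [if_neg hZ]
      have := loss_out' s r (B a) hε hB hm (2 * N + 1) N (by omega) x h hZ
      linarith
  have hs1 : ∑ s : κ → Bool, ∑ r : (ι → Bool) → κ → Bool, ∑ a : Ω,
      Oc * m h * (if (diff (x ∘ inl) s).card ≤ q then (1 : ℝ) else 0) ≤
      Wc * Rc * Oc * Oc * ((1 / 4) ^ q * m h) := by
    have h1 := sum_start (κ := κ) (q := q) (x ∘ inl) (by omega)
    simp only [Finset.sum_const, Finset.card_univ, nsmul_eq_mul]
    rw [← Finset.mul_sum, ← Finset.mul_sum, ← Finset.mul_sum, ← hRc, ← hOc]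
    rw [← hWc] at h1
    calc Rc * (Oc * (Oc * m h * ∑ s : κ → Bool,
          (if (diff (x ∘ inl) s).card ≤ q then (1 : ℝ) else 0)))
        ≤ Rc * (Oc * (Oc * m h * ((1 / 4) ^ q * Wc))) := by gcongr
      _ = _ := by ring
  have hs2 : ∑ s : κ → Bool, ∑ r : (ι → Bool) → κ → Bool, ∑ a : Ω,
      Oc * ext (B a) (KO1 q s r) (CV1 q s r) (fun w => (diff w s).card ≤ q) m (2 * N + 1) N
          (x ∘ inl) (x ∘ inr) h ≤ Wc * Rc * Oc * Oc * (ε * m h) := by
    calc _ ≤ ∑ s : κ → Bool, ∑ r : (ι → Bool) → κ → Bool, Oc * (ε * Oc * m h) := by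
          refine Finset.sum_le_sum fun s _ => Finset.sum_le_sum fun r _ => ?_
          rw [← Finset.mul_sum]
          exact mul_le_mul_of_nonneg_left
            (ext_vhard (KO1 q s r) (CV1 q s r) (fun w => (diff w s).card ≤ q) hB hm _ _ _ _) hOc0
      _ = _ := by
          simp only [Finset.sum_const, Finset.card_univ, nsmul_eq_mul]
          rw [← hRc, ← hWc]; ring
  have hs3 : ∑ s : κ → Bool, ∑ r : (ι → Bool) → κ → Bool, ∑ a : Ω,
      Oc * prem (B a) s r m (2 * N + 1) N (x ∘ inl) (x ∘ inr) h ≤
      Wc * Rc * Oc * Oc * (((1 / 4) ^ q * (2 * N + 1 + 1 : ℕ) + N * δ) * m h) := by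
    have h1 : ∑ s : κ → Bool, ∑ r : (ι → Bool) → κ → Bool, ∑ a : Ω,
      Oc * prem (B a) s r m (2 * N + 1) N (x ∘ inl) (x ∘ inr) h =
        Oc * ∑ a : Ω, ∑ s : κ → Bool, ∑ r : (ι → Bool) → κ → Bool,
          prem (B a) s r m (2 * N + 1) N (x ∘ inl) (x ∘ inr) h := by
      simp only [← Finset.mul_sum]
      congr 1
      rw [Finset.sum_comm]
      simp only [Finset.sum_comm (s := (univ : Finset Ω))]
      rw [Finset.sum_comm]
    rw [h1]
    calc _ ≤ Oc * ∑ _a : Ω, Wc * Rc * (((1 / 4) ^ q * (2 * N + 1 + 1 : ℕ) + N * δ) * m h) := by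
          refine mul_le_mul_of_nonneg_left (Finset.sum_le_sum fun a _ => ?_) hOc0
          exact sum_prem' (B a) hm (fun v hv K => hVis _ (hBV a v hv) K) hlam hδ N
            (2 * N + 1) _ _ _
      _ = _ := by
          rw [Finset.sum_const, Finset.card_univ, nsmul_eq_mul, ← hOc]; ring
  have hs4 : ∑ s : κ → Bool, ∑ r : (ι → Bool) → κ → Bool, ∑ a : Ω, ε * Oc * m h =
      Wc * Rc * Oc * Oc * (ε * m h) := by
    simp only [Finset.sum_const, Finset.card_univ, nsmul_eq_mul]
    rw [← hRc, ← hWc, ← hOc]; ring
  calc ∑ s : κ → Bool, ∑ r : (ι → Bool) → κ → Bool, ∑ a : Ω, ∑ b : Ω,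
        loss (comb s r (B a) (B b)) m (2 * N + 1) x h
      ≤ ∑ s : κ → Bool, ∑ r : (ι → Bool) → κ → Bool, ∑ a : Ω,
        (Oc * m h * (if (diff (x ∘ inl) s).card ≤ q then (1 : ℝ) else 0) +
        (Oc * (ext (B a) (KO1 q s r) (CV1 q s r) (fun w => (diff w s).card ≤ q) m (2 * N + 1) N
          (x ∘ inl) (x ∘ inr) h + prem (B a) s r m (2 * N + 1) N (x ∘ inl) (x ∘ inr) h) +
          ε * Oc * m h)) :=
        Finset.sum_le_sum fun s _ => Finset.sum_le_sum fun r _ =>
          Finset.sum_le_sum fun a _ => key s r a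
    _ = ∑ s : κ → Bool, ∑ r : (ι → Bool) → κ → Bool, ∑ a : Ω,
        Oc * m h * (if (diff (x ∘ inl) s).card ≤ q then (1 : ℝ) else 0) +
        (∑ s : κ → Bool, ∑ r : (ι → Bool) → κ → Bool, ∑ a : Ω,
          Oc * ext (B a) (KO1 q s r) (CV1 q s r) (fun w => (diff w s).card ≤ q) m (2 * N + 1) N
          (x ∘ inl) (x ∘ inr) h +
        ∑ s : κ → Bool, ∑ r : (ι → Bool) → κ → Bool, ∑ a : Ω,
          Oc * prem (B a) s r m (2 * N + 1) N (x ∘ inl) (x ∘ inr) h +
        ∑ s : κ → Bool, ∑ r : (ι → Bool) → κ → Bool, ∑ a : Ω, ε * Oc * m h) := by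
        simp only [mul_add, Finset.sum_add_distrib]
    _ ≤ Wc * Rc * Oc * Oc * ((1 / 4) ^ q * m h) + (Wc * Rc * Oc * Oc * (ε * m h) +
        Wc * Rc * Oc * Oc * (((1 / 4) ^ q * (2 * N + 1 + 1 : ℕ) + N * δ) * m h) +
        Wc * Rc * Oc * Oc * (ε * m h)) := by
        rw [hs4]
        exact add_le_add hs1 (add_le_add (add_le_add hs2 hs3) le_rfl)
    _ = _ := by push_cast; ring


end Pool.Agent.H10.RR
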