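import Pool.Agent.H10.RR.Step
set_option autoImplicit false
set_option linter.unusedSectionVars false

/-!
Iteration of the construction along the levels of the directions, and the general theorem.
-/

namespace Pool.Agent.H10.RR

open Finset Sum
open Pool.Agent.K4H94.SX

/-- the relation on the directions `ι`, which are embedded as the directions of level at least `a` -/
def Rel {n : ℕ} {ι : Type} (R : Finset (Fin n) → Finset (Fin n) → Finset (Fin n) → Prop)
    (g : Fin n → ℕ) (a : ℕ) (e : ι ↪ Fin n) (S X Y : Finset ι) : Prop :=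
  ∀ S' : Finset (Fin n), S'.filter (fun x => a ≤ g x) = S.map e → R S' (X.map e) (Y.map e)

/-- more than `q` directions of some level are improving -/
def Vis {n : ℕ} {ι : Type} (g : Fin n → ℕ) (L q a : ℕ) (e : ι ↪ Fin n) (S : Finset ι) : Prop :=
  ∃ i, a ≤ i ∧ i < L ∧ q < ((S.map e).filter (fun x => g x = i)).card

theorem vhard_base {ι : Type} [DecidableEq ι] [Fintype ι] (q : ℕ)
    (R : Finset ι → Finset ι → Finset ι → Prop) (V : Finset ι → Prop) (θ : ℕ) :
    VHard ι q R V θ 0 0 := by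
  refine ⟨Unit, inferInstance, inferInstance, fun _ => base ι q, fun ω x h => h.elim,
    fun m hm x h => ?_⟩
  simp [loss]

theorem tower_eps {q L : ℕ} {δ η : ℝ} (hη : 0 ≤ η) (h1 : δ ≤ η)
    (h2 : (1 / 4 : ℝ) ^ q * 3 ≤ η) :
    2 * (L * 2 ^ L * η) + ((1 / 4) ^ q * ((2 * (2 ^ L - 1) + 3 : ℕ) : ℝ) +
      ((2 ^ L - 1 : ℕ) : ℝ) * δ) ≤ ((L + 1 : ℕ) : ℝ) * 2 ^ (L + 1) * η := by
  have hN : ((2 ^ L - 1 : ℕ) : ℝ) = 2 ^ L - 1 := by
    rw [Nat.cast_sub Nat.one_le_two_pow]; push_cast; rfl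
  have hN0 : (0 : ℝ) ≤ 2 ^ L - 1 := by
    have : (1 : ℝ) ≤ 2 ^ L := one_le_pow₀ (by norm_num)
    linarith
  push_cast
  rw [hN]
  have a1 : (2 ^ L - 1 : ℝ) * δ ≤ (2 ^ L - 1) * η := mul_le_mul_of_nonneg_left h1 hN0
  have a2 : (1 / 4 : ℝ) ^ q * (2 * (2 ^ L - 1) + 3) ≤ 2 ^ L * η := by
    have b1 : (1 / 4 : ℝ) ^ q * (2 * (2 ^ L - 1) + 3) ≤ (1 / 4 : ℝ) ^ q * (3 * 2 ^ L) := by
      apply mul_le_mul_of_nonneg_left _ (by positivity)
      linarith
    have b2 : (1 / 4 : ℝ) ^ q * (3 * 2 ^ L) = ((1 / 4 : ℝ) ^ q * 3) * 2 ^ L := by ring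
    have b3 : ((1 / 4 : ℝ) ^ q * 3) * 2 ^ L ≤ η * 2 ^ L :=
      mul_le_mul_of_nonneg_right h2 (by positivity)
    linarith
  have a3 : ((L : ℝ) + 1) * 2 ^ (L + 1) * η = 2 * (L * 2 ^ L * η) + 2 * 2 ^ L * η := by
    rw [pow_succ]; ring
  rw [a3]
  nlinarith

section

variable {n : ℕ} {ι : Type} [DecidableEq ι] [Fintype ι]
  {R : Finset (Fin n) → Finset (Fin n) → Finset (Fin n) → Prop} {g : Fin n → ℕ} {q L a : ℕ}

/-- the embedding of the directions with one more level -/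
def ext1 {c : ℕ} (k : Fin c ↪ Fin n) (e : ι ↪ Fin n) (h : ∀ x y, k x ≠ e y) :
    Fin c ⊕ ι ↪ Fin n where
  toFun := Sum.elim k e
  inj' := by
    rintro (x | x) (y | y) hxy
    · exact congrArg inl (k.injective hxy)
    · exact absurd hxy (h x y)
    · exact absurd hxy.symm (h y x)
    · exact congrArg inr (e.injective hxy)

variable {c : ℕ} (k : Fin c ↪ Fin n) (e : ι ↪ Fin n) (h : ∀ x y, k x ≠ e y)

theorem map_inl (X : Finset (Fin c)) :
    (X.map ⟨inl, Sum.inl_injective⟩ : Finset (Fin c ⊕ ι)).map (ext1 k e h) = X.map k := by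
  rw [Finset.map_map]
  rfl

theorem map_inr (X : Finset ι) :
    (X.map ⟨inr, Sum.inr_injective⟩ : Finset (Fin c ⊕ ι)).map (ext1 k e h) = X.map e := by
  rw [Finset.map_map]
  rfl

theorem map_disjSum (K : Finset (Fin c)) (S : Finset ι) (x : Fin n) :
    x ∈ (K.disjSum S).map (ext1 k e h) ↔ x ∈ K.map k ∨ x ∈ S.map e := by
  rw [Finset.mem_map, Finset.mem_map, Finset.mem_map]
  constructor
  · rintro ⟨z, hz, rfl⟩
    rcases z with z | z
    · exact Or.inl ⟨z, Finset.inl_mem_disjSum.1 hz, rfl⟩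
    · exact Or.inr ⟨z, Finset.inr_mem_disjSum.1 hz, rfl⟩
  · rintro (⟨z, hz, rfl⟩ | ⟨z, hz, rfl⟩)
    · exact ⟨inl z, Finset.inl_mem_disjSum.2 hz, rfl⟩
    · exact ⟨inr z, Finset.inr_mem_disjSum.2 hz, rfl⟩

/-- what is known about a set of the cube with its trace -/
theorem trace (hk : ∀ x, g (k x) = a) (he : ∀ x, a + 1 ≤ g (e x))
    {K : Finset (Fin c)} {S : Finset ι} {S' : Finset (Fin n)}
    (hS : S'.filter (fun x => a ≤ g x) = (K.disjSum S).map (ext1 k e h)) :
    S'.filter (fun x => a + 1 ≤ g x) = S.map e ∧ S'.filter (fun x => g x = a) = K.map k ∧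
      S'.filter (fun x => a < g x) = S.map e := by
  have key : ∀ x, (x ∈ S' ∧ a ≤ g x) ↔ (x ∈ K.map k ∨ x ∈ S.map e) := by
    intro x
    rw [← map_disjSum k e h, ← hS, Finset.mem_filter]
  have h1 : ∀ x ∈ K.map k, g x = a := by
    intro x hx
    obtain ⟨z, _, rfl⟩ := Finset.mem_map.1 hx
    exact hk z
  have h2 : ∀ x ∈ S.map e, a + 1 ≤ g x := by
    intro x hx
    obtain ⟨z, _, rfl⟩ := Finset.mem_map.1 hx
    exact he z
  have h3 : S'.filter (fun x => a + 1 ≤ g x) = S.map e := by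
    ext x
    rw [Finset.mem_filter]
    constructor
    · rintro ⟨hx, hg⟩
      rcases (key x).1 ⟨hx, by omega⟩ with h4 | h4
      · have := h1 x h4; omega
      · exact h4
    · intro hx
      exact ⟨((key x).2 (Or.inr hx)).1, h2 x hx⟩
  refine ⟨h3, ?_, h3⟩
  ext x
  rw [Finset.mem_filter]
  constructor
  · rintro ⟨hx, hg⟩
    rcases (key x).1 ⟨hx, by omega⟩ with h4 | h4
    · exact h4
    · have := h2 x h4; omega
  · intro hx
    exact ⟨((key x).2 (Or.inl hx)).1, h1 x hx⟩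

/-- one more level -/
theorem level_step (hk : ∀ x, g (k x) = a) (he : ∀ x, a + 1 ≤ g (e x)) (haL : a < L)
    (hR : ∀ S i, a < i → i < L → q < (S.filter fun x => g x = i).card →
      R S (S.filter fun x => g x = a) (S.filter fun x => a < g x))
    {θ N : ℕ} {ε : ℝ} (hε : 0 ≤ ε) (hc : 8 * q ≤ c) {lam δ : ℝ} (hlam : lam * (1 + θ) = θ)
    (hδ : ∀ w : Fin c → Bool,
      ∑ x : Fin c → Bool, lam ^ ((diff w x).card - 8 * q) ≤ δ * Fintype.card (Fin c → Bool))
    (H : VHard ι q (Rel R g (a + 1) e) (Vis g L q (a + 1) e) θ N ε) :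
    VHard (Fin c ⊕ ι) q (Rel R g a (ext1 k e h)) (Vis g L q a (ext1 k e h)) θ (2 * N + 1)
      (2 * ε + ((1 / 4) ^ q * (2 * N + 3 : ℕ) + N * δ)) := by
  have H' : VHard ι q (inRel (Rel R g a (ext1 k e h))) (Vis g L q (a + 1) e) θ N ε := by
    refine H.mono ?_ (fun _ h => h) le_rfl
    intro S X Y hXY K S' hS'
    rw [map_inr, map_inr]
    exact hXY S' (trace k e h hk he hS').1
  refine (vhard_step (κ := Fin c) hε (by rw [Fintype.card_fin]; exact hc) ?_ hlam hδ H').mono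
    (fun _ _ _ h => h) ?_ le_rfl
  · rintro S ⟨i, hi1, hi2, hi3⟩ K S' hS'
    obtain ⟨t1, t2, t3⟩ := trace k e h hk he hS'
    rw [map_inr, map_inl, ← t2, ← t3]
    refine hR S' i (by omega) hi2 (lt_of_lt_of_le hi3 (Finset.card_le_card ?_))
    rw [← t1]
    exact Finset.filter_subset_filter _ (Finset.filter_subset _ _)
  · rintro T (hT | ⟨i, hi1, hi2, hi3⟩)
    · refine ⟨a, le_rfl, haL, lt_of_lt_of_le hT ?_⟩
      rw [← Finset.card_map k]
      apply Finset.card_le_card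
      intro x hx
      obtain ⟨z, hz, rfl⟩ := Finset.mem_map.1 hx
      rw [Finset.mem_filter, Finset.mem_map]
      exact ⟨⟨inl z, Finset.mem_toLeft.1 hz, rfl⟩, hk z⟩
    · refine ⟨i, by omega, hi2, lt_of_lt_of_le hi3 (Finset.card_le_card ?_)⟩
      intro x hx
      rw [Finset.mem_filter] at hx ⊢
      refine ⟨?_, hx.2⟩
      obtain ⟨z, hz, rfl⟩ := Finset.mem_map.1 hx.1
      exact Finset.mem_map.2 ⟨inr z, Finset.mem_toRight.1 hz, rfl⟩

end

/-- all levels -/
theorem tower {n : ℕ} {R : Finset (Fin n) → Finset (Fin n) → Finset (Fin n) → Prop}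
    {g : Fin n → ℕ} {q θ L : ℕ} {lam δ η : ℝ} (hlam : lam * (1 + θ) = θ) (hη : 0 ≤ η)
    (hδ : ∀ w : Fin (64 * q) → Bool,
      ∑ x : Fin (64 * q) → Bool, lam ^ ((diff w x).card - 8 * q) ≤
        δ * Fintype.card (Fin (64 * q) → Bool))
    (h1 : δ ≤ η) (h2 : (1 / 4 : ℝ) ^ q * 3 ≤ η)
    (hg : ∀ a < L, (univ.filter fun x => g x = a).card = 64 * q)
    (hR : ∀ S a i, a < i → i < L → q < (S.filter fun x => g x = i).card →
      R S (S.filter fun x => g x = a) (S.filter fun x => a < g x)) (j : ℕ) (hj : j ≤ L) :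
    ∃ (ι : Type) (_ : DecidableEq ι) (_ : Fintype ι) (e : ι ↪ Fin n),
      (∀ x, (∃ y, e y = x) ↔ L - j ≤ g x) ∧
      VHard ι q (Rel R g (L - j) e) (Vis g L q (L - j) e) θ (2 ^ j - 1) (j * 2 ^ j * η) := by
  induction j with
  | zero =>
    refine ⟨{x : Fin n // L ≤ g x}, inferInstance, inferInstance,
      Function.Embedding.subtype _, ?_, ?_⟩
    · intro x
      constructor
      · rintro ⟨y, rfl⟩; exact y.2
      · intro hx; exact ⟨⟨x, hx⟩, rfl⟩
    · have := vhard_base (ι := {x : Fin n // L ≤ g x}) q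
        (Rel R g (L - 0) (Function.Embedding.subtype _))
        (Vis g L q (L - 0) (Function.Embedding.subtype _)) θ
      simpa using this
  | succ j ih =>
    obtain ⟨ι, i1, i2, e, he, H⟩ := ih (by omega)
    obtain ⟨a, ha⟩ : ∃ a, L - j = a + 1 := ⟨L - j - 1, by omega⟩
    have ha' : L - (j + 1) = a := by omega
    rw [ha] at he H
    rw [ha']
    have hcard : Fintype.card {x : Fin n // g x = a} = 64 * q := by
      rw [Fintype.card_subtype]; exact hg a (by omega)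
    let k : Fin (64 * q) ↪ Fin n :=
      (Fintype.equivFinOfCardEq hcard).symm.toEmbedding.trans (Function.Embedding.subtype _)
    have hk : ∀ x, g (k x) = a := fun x => ((Fintype.equivFinOfCardEq hcard).symm x).2
    have he' : ∀ x, a + 1 ≤ g (e x) := fun x => (he (e x)).1 ⟨x, rfl⟩
    have hke : ∀ x y, k x ≠ e y := by
      intro x y hxy
      have h3 := hk x
      have h4 := he' y
      rw [hxy] at h3
      omega
    refine ⟨Fin (64 * q) ⊕ ι, inferInstance, inferInstance, ext1 k e hke, ?_, ?_⟩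
    · intro x
      constructor
      · rintro ⟨y | y, rfl⟩
        · exact (hk y).ge
        · have := he' y
          show a ≤ g (e y)
          omega
      · intro hx
        rcases Nat.lt_or_ge a (g x) with h3 | h3
        · obtain ⟨y, hy⟩ := (he x).2 h3
          exact ⟨inr y, hy⟩
        · refine ⟨inl (Fintype.equivFinOfCardEq hcard ⟨x, by omega⟩), ?_⟩
          show k _ = x
          simp [k]
    · have hε : (0 : ℝ) ≤ j * 2 ^ j * η := by positivity
      have H2 := level_step k e hke hk he' (by omega)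
        (fun S i hi hi2 hq => hR S a i hi hi2 hq) hε (by omega) hlam hδ H
      have e2 : 2 * (2 ^ j - 1) + 1 = 2 ^ (j + 1) - 1 := by
        have : 1 ≤ 2 ^ j := Nat.one_le_two_pow
        rw [pow_succ]; omega
      rw [e2] at H2
      exact H2.mono (fun _ _ _ h => h) (fun _ h => h) (tower_eps hη h1 h2)

/-! ### Pivot rules -/

/-- the condition of a rule on the sets `S`, `X`, `Y` -/
def RRel {n : ℕ} (p : List ((Fin n → Bool) × ℕ × Finset (Fin n)) → Fin n → ℝ) (θ : ℕ)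
    (S X Y : Finset (Fin n)) : Prop :=
  ∀ x y l, ∑ i ∈ X, p ((x, y, S) :: l) i ≤ θ * ∑ i ∈ Y, p ((x, y, S) :: l) i

theorem flow_vflow {n : ℕ} {ι : Type} [DecidableEq ι] [Fintype ι]
    (p : List ((Fin n → Bool) × ℕ × Finset (Fin n)) → Fin n → ℝ) (e : ι ≃ Fin n)
    (x₀ : Fin n → Bool) {θ : ℕ} (hp0 : ∀ l i, 0 ≤ p l i)
    (hp1 : ∀ x y S l, S.Nonempty → ∑ i ∈ S, p ((x, y, S) :: l) i = 1) :
    VFlow (fun S X Y => RRel p θ (S.map e.toEmbedding) (X.map e.toEmbedding)
      (Y.map e.toEmbedding)) θ (flow p e x₀) := by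
  have h0 : ∀ h : Hist ι, 0 ≤ flow p e x₀ h := by
    intro h
    induction h with
    | nil => simp [flow]
    | cons a h ih =>
      obtain ⟨⟨S, y⟩, i⟩ := a
      rw [flow]
      exact mul_nonneg ih (hp0 _ _)
  refine ⟨h0, ?_, ?_⟩
  · intro h S y
    simp only [flow, tr]
    rw [← Finset.mul_sum]
    rcases S.eq_empty_or_nonempty with rfl | hS
    · simpa using h0 h
    · have h1 := hp1 (posF e x₀ h) (val (posF e x₀ h) y) (S.map e.toEmbedding) (tr e x₀ h)
        (by simpa using hS)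
      rw [Finset.sum_map] at h1
      have h2 : ∑ i ∈ S, p ((posF e x₀ h, val (posF e x₀ h) y, S.map e.toEmbedding) ::
          tr e x₀ h) (e i) = 1 := h1
      rw [h2, mul_one]
  · intro h S y X Y hXY
    simp only [flow, tr]
    rw [← Finset.mul_sum, ← Finset.mul_sum]
    have h1 := hXY (posF e x₀ h) (val (posF e x₀ h) y) (tr e x₀ h)
    rw [Finset.sum_map, Finset.sum_map] at h1
    calc flow p e x₀ h * ∑ i ∈ X, p ((posF e x₀ h, val (posF e x₀ h) y,
          S.map e.toEmbedding) :: tr e x₀ h) (e i)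
        ≤ flow p e x₀ h * (θ * ∑ i ∈ Y, p ((posF e x₀ h, val (posF e x₀ h) y,
          S.map e.toEmbedding) :: tr e x₀ h) (e i)) := mul_le_mul_of_nonneg_left h1 (h0 h)
      _ = _ := by ring

/-- **The general theorem.** The directions have levels `g`; each of the levels `0, …, L - 1` has
`64 q` directions. Whenever more than `q` directions of a level `i` are improving, the improving
directions of a level `a < i` are together at most `θ` times as probable as all improving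
directions of higher level than `a`. -/
theorem rules_slow' {n : ℕ} (p : List ((Fin n → Bool) × ℕ × Finset (Fin n)) → Fin n → ℝ)
    (x₀ : Fin n → Bool) (q θ t L : ℕ) (hθ : 1 ≤ θ) (ht : (1 + θ) * t ≤ 8 * q) (ht2 : 2 ≤ t)
    (hq : t ≤ q) (g : Fin n → ℕ)
    (hg : ∀ a < L, (univ.filter fun x => g x = a).card = 64 * q) (hp0 : ∀ l i, 0 ≤ p l i)
    (hp1 : ∀ x y S l, S.Nonempty → ∑ i ∈ S, p ((x, y, S) :: l) i = 1)
    (hr : ∀ x y S l, ∀ a i, a < i → i < L → q < (S.filter fun z => g z = i).card →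
      ∑ i ∈ S.filter (fun z => g z = a), p ((x, y, S) :: l) i ≤
        θ * ∑ i ∈ S.filter (fun z => a < g z), p ((x, y, S) :: l) i) :
    ∃ f : (Fin n → Bool) → ℕ, Function.Injective f ∧
      (∀ (U : Finset (Fin n)) (x : Fin n → Bool), ∃! y : Fin n → Bool,
        (∀ i, i ∉ U → y i = x i) ∧ ∀ i ∈ U, f (flip y i) < f y) ∧
      1 - L * 2 ^ L * (1 / 2) ^ t ≤ prob f p (2 ^ L - 1) x₀ [] := by
  have hθ' : (1 : ℝ) ≤ θ := by exact_mod_cast hθ
  have hn4 : (1 / 4 : ℝ) ^ q * 3 ≤ (1 / 2) ^ t := by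
    have h1 : (1 / 4 : ℝ) ^ q ≤ (1 / 4) ^ t :=
      pow_le_pow_of_le_one (by norm_num) (by norm_num) hq
    have h2 : (1 / 4 : ℝ) ^ t = (1 / 2) ^ t * (1 / 2) ^ t := by rw [← mul_pow]; norm_num
    have h3 : (1 / 2 : ℝ) ^ t ≤ (1 / 2) ^ 2 :=
      pow_le_pow_of_le_one (by norm_num) (by norm_num) ht2
    have h4 : (0 : ℝ) < (1 / 2) ^ t := by positivity
    nlinarith
  obtain ⟨ι, i1, i2, e0, he0, Ω, hΩ, hΩ', A, hAV, hA⟩ :=
    tower (R := RRel p θ) (g := g) (q := q) (θ := θ) (L := L) (lam := (θ : ℝ) / (1 + θ))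
      (δ := (1 / 2) ^ t) (η := (1 / 2) ^ t) (by field_simp) (by positivity)
      (delta_bound q θ t hθ ht) le_rfl hn4 hg
      (fun S a i ha hi hq x y l => hr x y S l a i ha hi hq) L le_rfl
  have hsurj : Function.Surjective e0 := fun x => (he0 x).2 (by omega)
  let e : ι ≃ Fin n := Equiv.ofBijective e0 ⟨e0.injective, hsurj⟩
  have hemb : e.toEmbedding = e0 := by ext x; rfl
  have hflow : VFlow (Rel (RRel p θ) g (L - L) e0) θ (flow p e x₀) := by
    refine (flow_vflow p e x₀ hp0 hp1).mono ?_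
    intro S X Y hXY
    rw [hemb]
    apply hXY
    rw [Finset.filter_true_of_mem]
    intro x _
    omega
  have h1 := hA _ hflow (x₀ ∘ e) []
  have h2 : ∃ ω, loss (A ω) (flow p e x₀) (2 ^ L - 1) (x₀ ∘ e) [] ≤
      L * 2 ^ L * (1 / 2) ^ t := by
    by_contra hc
    push Not at hc
    have h3 : ∑ _ω : Ω, (L * 2 ^ L * (1 / 2) ^ t : ℝ) <
        ∑ ω, loss (A ω) (flow p e x₀) (2 ^ L - 1) (x₀ ∘ e) [] :=
      Finset.sum_lt_sum_of_nonempty Finset.univ_nonempty fun ω _ => hc ω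
    rw [Finset.sum_const, Finset.card_univ, nsmul_eq_mul] at h3
    have h4 : flow p e x₀ [] = 1 := rfl
    rw [h4, mul_one] at h1
    linarith
  obtain ⟨ω, hω⟩ := h2
  refine ⟨fF e (A ω), fF_inj e (A ω), fF_uso e (A ω), ?_⟩
  have h5 := flow_le p e x₀ (A ω) hp0 hp1 hflow.nonneg (2 ^ L - 1) []
  have h4 : flow p e x₀ [] = 1 := rfl
  have h6 : posF e x₀ [] = x₀ := rfl
  have h7 : tr e x₀ [] = [] := rfl
  rw [h4, h6, h7, one_mul] at h5
  linarith

end Pool.Agent.H10.RR
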